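import Mathlib
import Pool.Agent.Lib.MP_6bc78b_nt.ZetaBounds
import Pool.Agent.Lib.MP_6bc78b_nt.Blaschke
import Pool.Agent.Lib.MP_6bc78b_nt.LogBound

set_option autoImplicit false

open Complex Set Filter Topology Metric

namespace Pool.Agent.Lib.MP_6bc78b_nt.LL

open Pool.Agent.Lib.MP_6bc78b_nt

/-- Upper Stirling-type bound in the strip. -/
lemma exists_Gamma_upper :
    ∃ C : ℝ, 1 ≤ C ∧ ∀ z : ℂ, 1/8 ≤ z.re → z.re ≤ 7/8 → 3 ≤ |z.im| →
      ‖Complex.Gamma z‖ ≤ C * (1 + |z.im|) ^ (z.re - 1/2) * Real.exp (-(Real.pi * |z.im| / 2)) := by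
  obtain ⟨C, hC, h⟩ := exists_norm_Gamma_cos_le
  refine ⟨8 * C + 1, by linarith, ?_⟩
  intro z h1 h2 h3
  have hz0 : z ≠ 0 := by
    intro hz; rw [hz] at h1; simp at h1; norm_num at h1
  have hG : Complex.Gamma (z+1) = z * Complex.Gamma z := Complex.Gamma_add_one _ hz0
  have hb := h (z+1) (by simp; linarith) (by simp; linarith)
  rw [norm_mul, hG, norm_mul] at hb
  have him : (z+1).im = z.im := by simp
  have hre : (z+1).re = z.re + 1 := by simp
  rw [him, hre] at hb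
  have hcos := norm_cos_sq ((Real.pi:ℂ) * (z+1) / 2)
  have e1 : 2 * ((Real.pi:ℂ) * (z+1) / 2).im = Real.pi * z.im := by
    have : (Real.pi:ℂ) * (z+1) / 2 = ((Real.pi/2 : ℝ):ℂ) * (z+1) := by push_cast; ring
    rw [this, Complex.im_ofReal_mul]; simp; ring
  rw [e1] at hcos
  have hch : Real.exp (Real.pi * |z.im|) / 2 ≤ Real.cosh (Real.pi * z.im) := by
    rw [← Real.cosh_abs, abs_mul, abs_of_pos Real.pi_pos, Real.cosh_eq]
    have := Real.exp_pos (-(Real.pi * |z.im|))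
    linarith
  have hE : 8 ≤ Real.exp (Real.pi * |z.im|) := by
    have hp := Real.pi_gt_three
    have h5 : 8 ≤ Real.pi * |z.im| := by nlinarith
    linarith [Real.add_one_le_exp (Real.pi * |z.im|)]
  have hcosl := Real.neg_one_le_cos (2 * ((Real.pi:ℂ) * (z+1) / 2).re)
  have hc2 : (Real.exp (Real.pi * |z.im| / 2) / 4) ^ 2 ≤ ‖Complex.cos ((Real.pi:ℂ) * (z+1) / 2)‖ ^ 2 := by
    rw [hcos, div_pow, ← Real.exp_nat_mul]
    have e2 : ((2:ℕ):ℝ) * (Real.pi * |z.im| / 2) = Real.pi * |z.im| := by push_cast; ring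
    rw [e2]
    linarith
  have hc3 : Real.exp (Real.pi * |z.im| / 2) / 4 ≤ ‖Complex.cos ((Real.pi:ℂ) * (z+1) / 2)‖ :=
    le_of_sq_le_sq hc2 (norm_nonneg _)
  have hzn : (1 + |z.im|) / 2 ≤ ‖z‖ := by
    have := Complex.abs_im_le_norm z
    linarith
  have hY : 0 < 1 + |z.im| := by positivity
  have hpw : (1 + |z.im|) ^ (z.re + 1 - 1/2) = (1 + |z.im|) * (1 + |z.im|) ^ (z.re - 1/2) := by
    rw [show z.re + 1 - 1/2 = 1 + (z.re - 1/2) by ring, Real.rpow_add hY, Real.rpow_one]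
  rw [hpw] at hb
  have hGn : 0 ≤ ‖Complex.Gamma z‖ := norm_nonneg _
  have hEp : 0 < Real.exp (Real.pi * |z.im| / 2) := Real.exp_pos _
  have hP : 0 < (1 + |z.im|) ^ (z.re - 1/2) := Real.rpow_pos_of_pos hY _
  have h6 : ((1 + |z.im|) / 2 * ‖Complex.Gamma z‖) * (Real.exp (Real.pi * |z.im| / 2) / 4) ≤
      C * ((1 + |z.im|) * (1 + |z.im|) ^ (z.re - 1/2)) := by
    refine le_trans ?_ hb
    apply mul_le_mul _ hc3 (by positivity) (by positivity)
    exact mul_le_mul_of_nonneg_right hzn hGn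
  have h7 : ‖Complex.Gamma z‖ * Real.exp (Real.pi * |z.im| / 2) ≤ 8 * C * (1 + |z.im|) ^ (z.re - 1/2) := by
    have h8 : (1 + |z.im|) * (‖Complex.Gamma z‖ * Real.exp (Real.pi * |z.im| / 2)) ≤
        (1 + |z.im|) * (8 * C * (1 + |z.im|) ^ (z.re - 1/2)) := by linarith
    exact le_of_mul_le_mul_left h8 hY
  rw [Real.exp_neg]
  rw [← div_eq_mul_inv, le_div_iff₀ hEp]
  refine h7.trans ?_
  apply mul_le_mul_of_nonneg_right _ hP.le
  linarith

lemma exists_Gamma_lower :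
    ∃ C : ℝ, 1 ≤ C ∧ ∀ z : ℂ, 1/8 ≤ z.re → z.re ≤ 7/8 → 3 ≤ |z.im| →
      (1 + |z.im|) ^ (z.re - 1/2) * Real.exp (-(Real.pi * |z.im| / 2)) ≤ C * ‖Complex.Gamma z‖ := by
  obtain ⟨C, hC, h⟩ := exists_Gamma_upper
  refine ⟨C, hC, ?_⟩
  intro z h1 h2 h3
  have hG := Complex.Gamma_mul_Gamma_one_sub z
  have hsn : ‖Complex.sin ((Real.pi:ℂ) * z)‖ ≤ Real.exp (Real.pi * |z.im|) := by
    refine (norm_sin_le _).trans ?_
    rw [Complex.im_ofReal_mul, abs_mul, abs_of_pos Real.pi_pos]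
  have hs0 : Complex.sin ((Real.pi:ℂ) * z) ≠ 0 := by
    rw [Complex.sin_ne_zero_iff]
    intro k hk
    have h4 := congrArg Complex.im hk
    rw [Complex.im_ofReal_mul] at h4
    have h5 : ((k:ℂ) * (Real.pi:ℂ)).im = 0 := by
      rw [show ((k:ℂ) * (Real.pi:ℂ)) = (((k:ℝ) * Real.pi : ℝ):ℂ) by push_cast; ring]
      exact Complex.ofReal_im _
    rw [h5] at h4
    rcases mul_eq_zero.1 h4 with h6 | h6
    · exact Real.pi_ne_zero h6
    · rw [h6] at h3; simp at h3; norm_num at h3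
  have hu := h (1 - z) (by simp; linarith) (by simp; linarith) (by simpa using h3)
  have him : |(1 - z).im| = |z.im| := by simp
  have hre : (1 - z).re - 1/2 = -(z.re - 1/2) := by simp; ring
  rw [him, hre] at hu
  have hn : ‖Complex.Gamma z‖ * ‖Complex.Gamma (1 - z)‖ * ‖Complex.sin ((Real.pi:ℂ) * z)‖ = Real.pi := by
    rw [← norm_mul, hG, norm_div, div_mul_cancel₀ _ (by simpa using hs0)]
    simp [abs_of_pos Real.pi_pos]
  have hY : 0 < 1 + |z.im| := by positivity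
  obtain ⟨P, hP⟩ : ∃ P, P = (1 + |z.im|) ^ (z.re - 1/2) := ⟨_, rfl⟩
  obtain ⟨E, hE⟩ : ∃ E, E = Real.exp (Real.pi * |z.im| / 2) := ⟨_, rfl⟩
  have hPp : 0 < P := by rw [hP]; exact Real.rpow_pos_of_pos hY _
  have hEp : 0 < E := by rw [hE]; exact Real.exp_pos _
  have hE2 : Real.exp (Real.pi * |z.im|) = E * E := by
    rw [hE, ← Real.exp_add]; congr 1; ring
  rw [Real.exp_neg, ← hP, ← hE]
  rw [Real.rpow_neg hY.le, ← hP, Real.exp_neg, ← hE] at hu
  rw [hE2] at hsn
  have h8 : Real.pi ≤ ‖Complex.Gamma z‖ * (C * P⁻¹ * E⁻¹) * (E * E) := by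
    rw [← hn]
    apply mul_le_mul _ hsn (norm_nonneg _) (by positivity)
    exact mul_le_mul_of_nonneg_left hu (norm_nonneg _)
  have h9 : ‖Complex.Gamma z‖ * (C * P⁻¹ * E⁻¹) * (E * E) = (C * ‖Complex.Gamma z‖) * (E / P) := by
    field_simp
  rw [h9] at h8
  have h10 : 1 ≤ (C * ‖Complex.Gamma z‖) * (E / P) := by linarith [Real.pi_gt_three]
  have h11 : P * E⁻¹ = (P / E) * 1 := by field_simp
  rw [h11]
  calc P / E * 1 ≤ P / E * ((C * ‖Complex.Gamma z‖) * (E / P)) :=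
        mul_le_mul_of_nonneg_left h10 (by positivity)
    _ = C * ‖Complex.Gamma z‖ := by field_simp

/-- If `x` and `y` differ by a factor at most `2`, then `x^a ≤ 2 y^a` for `|a| ≤ 1`. -/
lemma rpow_ratio_le {x y a : ℝ} (hx : 0 < x) (hy : 0 < y) (h1 : x ≤ 2 * y) (h2 : y ≤ 2 * x)
    (ha : |a| ≤ 1) : x ^ a ≤ 2 * y ^ a := by
  have hr : 0 < x / y := div_pos hx hy
  have e : x ^ a = (x / y) ^ a * y ^ a := by
    rw [← Real.mul_rpow hr.le hy.le, div_mul_cancel₀ _ hy.ne']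
  rw [e]
  apply mul_le_mul_of_nonneg_right _ (Real.rpow_nonneg hy.le _)
  have hl : |Real.log (x / y)| ≤ Real.log 2 := by
    rw [abs_le]
    constructor
    · rw [← Real.log_inv]
      apply Real.log_le_log (by norm_num)
      rw [le_div_iff₀ hy]; linarith
    · apply Real.log_le_log hr
      rw [div_le_iff₀ hy]; exact h1
  rw [Real.rpow_def_of_pos hr]
  have h3 : Real.log (x / y) * a ≤ Real.log 2 := by
    have : |Real.log (x / y) * a| ≤ Real.log 2 * 1 := by
      rw [abs_mul]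
      exact mul_le_mul hl ha (abs_nonneg _) (Real.log_nonneg (by norm_num))
    linarith [le_abs_self (Real.log (x / y) * a)]
  calc Real.exp (Real.log (x / y) * a) ≤ Real.exp (Real.log 2) := Real.exp_le_exp.2 h3
    _ = 2 := Real.exp_log (by norm_num)

/-- Stirling for the logarithmic derivative, crude form. -/
lemma exists_digamma :
    ∃ C : ℝ, 0 ≤ C ∧ ∀ z : ℂ, 1/4 ≤ z.re → z.re ≤ 3/4 → 4 ≤ |z.im| →
      ‖logDeriv Complex.Gamma z‖ ≤ Real.log (1 + |z.im|) + C := by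
  obtain ⟨C₁, hC₁, hup⟩ := exists_Gamma_upper
  obtain ⟨C₂, hC₂, hlo⟩ := exists_Gamma_lower
  obtain ⟨B, hB⟩ : ∃ B, B = 2 * C₁ * C₂ := ⟨_, rfl⟩
  have hB0 : 0 < B := by rw [hB]; positivity
  refine ⟨32 * B + 2, by positivity, ?_⟩
  intro z₀ h1 h2 h3
  obtain ⟨y₀, hy₀⟩ : ∃ y₀, y₀ = z₀.im := ⟨_, rfl⟩
  rw [← hy₀] at h3 ⊢
  obtain ⟨σ, hσ⟩ : ∃ σ : ℝ, σ = SignType.sign y₀ := ⟨_, rfl⟩
  have hσy : σ * y₀ = |y₀| := by rw [hσ]; exact sign_mul_self y₀
  have hσ1 : |σ| = 1 := by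
    have h5 : |σ| * |y₀| = |y₀| := by rw [← abs_mul, hσy, abs_abs]
    have h6 : |y₀| ≠ 0 := by linarith
    exact (mul_eq_right₀ h6).1 h5
  have hσsq : σ * σ = 1 := by
    have := abs_mul_abs_self σ
    rw [hσ1] at this; linarith
  have hY0 : 0 < 1 + |y₀| := by positivity
  obtain ⟨α, hα⟩ : ∃ α : ℂ, α = (Real.log (1 + |y₀|) : ℂ) + (Real.pi / 2 * σ : ℝ) * I := ⟨_, rfl⟩
  have hαre : α.re = Real.log (1 + |y₀|) := by rw [hα]; simp
  have hαim : α.im = Real.pi / 2 * σ := by rw [hα]; simp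
  -- facts on the ball
  have hball : ∀ w ∈ ball (0:ℂ) (1/8), 1/8 ≤ (z₀ + w).re ∧ (z₀ + w).re ≤ 7/8 ∧
      3 ≤ |(z₀ + w).im| ∧ σ * (z₀ + w).im = |(z₀ + w).im| ∧ |w.im| ≤ 1/8 := by
    intro w hw
    rw [mem_ball_zero_iff] at hw
    have hr := Complex.abs_re_le_norm w
    have hi := Complex.abs_im_le_norm w
    have hr1 := abs_le.1 (hr.trans hw.le)
    have hi1 : |w.im| ≤ 1/8 := hi.trans hw.le
    simp only [Complex.add_re, Complex.add_im, ← hy₀]
    have hs : |σ * w.im| ≤ 1/8 := by rw [abs_mul, hσ1, one_mul]; exact hi1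
    have hs1 := abs_le.1 hs
    have hpos : 3 ≤ σ * (y₀ + w.im) := by
      rw [mul_add, hσy]; linarith [hs1.1]
    have habs : σ * (y₀ + w.im) = |y₀ + w.im| := by
      have : |σ * (y₀ + w.im)| = |y₀ + w.im| := by rw [abs_mul, hσ1, one_mul]
      rw [← this, abs_of_nonneg (by linarith)]
    refine ⟨by linarith [hr1.1], by linarith [hr1.2], by rw [← habs]; exact hpos, habs, hi1⟩
  obtain ⟨g, hg⟩ : ∃ g : ℂ → ℂ, g = fun w => Complex.Gamma (z₀ + w) * Complex.exp (-(α * w)) :=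
    ⟨_, rfl⟩
  have hnat : ∀ w ∈ ball (0:ℂ) (1/8), ∀ m : ℕ, z₀ + w ≠ -m := by
    intro w hw m hm
    have h5 := (hball w hw).1
    rw [hm] at h5
    simp at h5
    have h6 : (0:ℝ) ≤ m := Nat.cast_nonneg m
    linarith
  have hgd : DifferentiableOn ℂ g (ball 0 (1/8)) := by
    intro w hw
    apply DifferentiableAt.differentiableWithinAt
    rw [hg]
    apply DifferentiableAt.mul
    · exact (Complex.differentiableAt_Gamma _ (hnat w hw)).comp w
        (by fun_prop)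
    · fun_prop
  have hgne : ∀ w ∈ ball (0:ℂ) (1/8), g w ≠ 0 := by
    intro w hw
    rw [hg]
    exact mul_ne_zero (Complex.Gamma_ne_zero (hnat w hw)) (Complex.exp_ne_zero _)
  obtain ⟨h, hhd, hh0, hh⟩ := exists_log (by norm_num : (0:ℝ) < 1/8) hgd hgne
  have h00 : (0:ℂ) ∈ ball (0:ℂ) (1/8) := mem_ball_self (by norm_num)
  have hg0 : g 0 = Complex.Gamma z₀ := by rw [hg]; simp
  have hg0p : 0 < ‖g 0‖ := norm_pos_iff.2 (hgne 0 h00)
  -- growth
  have hgrow : ∀ w ∈ ball (0:ℂ) (1/8), ‖g w‖ ≤ B * ‖g 0‖ := by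
    intro w hw
    obtain ⟨q1, q2, q3, q4, q5⟩ := hball w hw
    have hu := hup _ q1 q2 q3
    have hl := hlo z₀ (by linarith) (by linarith) (by rw [← hy₀]; linarith)
    rw [← hy₀] at hl
    obtain ⟨x, hx⟩ : ∃ x, x = (z₀ + w).re := ⟨_, rfl⟩
    obtain ⟨y, hy⟩ : ∃ y, y = (z₀ + w).im := ⟨_, rfl⟩
    rw [← hx, ← hy] at hu
    rw [← hy] at q3 q4
    rw [← hx] at q1 q2
    have hxw : x = z₀.re + w.re := by rw [hx]; simp
    have hyw : y = y₀ + w.im := by rw [hy, hy₀]; simp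
    have hYp : 0 < 1 + |y| := by positivity
    have hrat : (1 + |y|) ^ (x - 1/2) ≤ 2 * (1 + |y₀|) ^ (x - 1/2) := by
      have hd : |y - y₀| ≤ 1/8 := by rw [hyw]; simpa using q5
      have e1 : |y| ≤ |y₀| + 1/8 := by
        have := abs_sub_abs_le_abs_sub y y₀; linarith
      have e2 : |y₀| ≤ |y| + 1/8 := by
        have := abs_sub_abs_le_abs_sub y₀ y
        rw [abs_sub_comm] at this; linarith
      apply rpow_ratio_le hYp hY0 (by linarith [abs_nonneg y]) (by linarith [abs_nonneg y₀])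
      rw [abs_le]; constructor <;> linarith
    have hexp : ‖Complex.exp (-(α * w))‖ =
        (1 + |y₀|) ^ (-w.re) * Real.exp (Real.pi / 2 * (|y| - |y₀|)) := by
      rw [Complex.norm_exp]
      have : (-(α * w)).re = Real.log (1 + |y₀|) * (-w.re) + Real.pi / 2 * (|y| - |y₀|) := by
        rw [Complex.neg_re, Complex.mul_re, hαre, hαim]
        have : |y| - |y₀| = σ * w.im := by rw [← q4, ← hσy, hyw]; ring
        rw [this]; ring
      rw [this, Real.exp_add, Real.rpow_def_of_pos hY0]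
    have hgw : g w = Complex.Gamma (z₀ + w) * Complex.exp (-(α * w)) := by rw [hg]
    rw [hgw, norm_mul, hexp, hg0]
    have hEE : Real.exp (-(Real.pi * |y| / 2)) * Real.exp (Real.pi / 2 * (|y| - |y₀|)) =
        Real.exp (-(Real.pi * |y₀| / 2)) := by
      rw [← Real.exp_add]; congr 1; ring
    have hPP : (1 + |y₀|) ^ (x - 1/2) * (1 + |y₀|) ^ (-w.re) = (1 + |y₀|) ^ (z₀.re - 1/2) := by
      rw [← Real.rpow_add hY0]; congr 1; rw [hxw]; ring
    have hC1 : 0 ≤ C₁ := by linarith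
    calc ‖Complex.Gamma (z₀ + w)‖ * ((1 + |y₀|) ^ (-w.re) * Real.exp (Real.pi / 2 * (|y| - |y₀|)))
        ≤ (C₁ * (2 * (1 + |y₀|) ^ (x - 1/2)) * Real.exp (-(Real.pi * |y| / 2))) *
          ((1 + |y₀|) ^ (-w.re) * Real.exp (Real.pi / 2 * (|y| - |y₀|))) := by
          apply mul_le_mul_of_nonneg_right _ (by positivity)
          refine hu.trans ?_
          apply mul_le_mul_of_nonneg_right _ (Real.exp_pos _).le
          exact mul_le_mul_of_nonneg_left hrat hC1
      _ = 2 * C₁ * (((1 + |y₀|) ^ (x - 1/2) * (1 + |y₀|) ^ (-w.re)) *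
          (Real.exp (-(Real.pi * |y| / 2)) * Real.exp (Real.pi / 2 * (|y| - |y₀|)))) := by ring
      _ = 2 * C₁ * ((1 + |y₀|) ^ (z₀.re - 1/2) * Real.exp (-(Real.pi * |y₀| / 2))) := by
          rw [hEE, hPP]
      _ ≤ 2 * C₁ * (C₂ * ‖Complex.Gamma z₀‖) :=
          mul_le_mul_of_nonneg_left hl (by positivity)
      _ = B * ‖Complex.Gamma z₀‖ := by rw [hB]; ring
  have hre : ∀ w ∈ ball (0:ℂ) (1/8), (h w).re ≤ B := by
    intro w hw
    have h5 := hgrow w hw
    rw [hh w hw, norm_mul, Complex.norm_exp, mul_comm] at h5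
    have h6 : Real.exp (h w).re ≤ B := le_of_mul_le_mul_right h5 hg0p
    linarith [Real.add_one_le_exp (h w).re]
  have hderiv : ‖deriv h 0‖ ≤ 2 * B / (1/16) := by
    apply Complex.norm_deriv_le_of_forall_mem_sphere_norm_le (by norm_num : (0:ℝ) < 1/16)
    · apply DifferentiableOn.diffContOnCl
      apply hhd.mono
      rw [closure_ball _ (by norm_num)]
      exact closedBall_subset_ball (by norm_num)
    · intro w hw
      rw [mem_sphere_zero_iff_norm] at hw
      have hwb : w ∈ ball (0:ℂ) (1/8) := by rw [mem_ball_zero_iff, hw]; norm_num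
      have h5 := Complex.borelCaratheodory_zero (f := h) (M := B) (R := 1/8) hB0 hhd
        (fun u hu => hre u hu) (by norm_num) hwb hh0
      rw [hw] at h5
      refine h5.trans (le_of_eq ?_)
      ring
  have hld : deriv h 0 = logDeriv Complex.Gamma z₀ - α := by
    have hgder : HasDerivAt g (g 0 * (Complex.exp (h 0) * deriv h 0)) 0 := by
      have hh' : HasDerivAt h (deriv h 0) 0 :=
        (hhd.differentiableAt (isOpen_ball.mem_nhds h00)).hasDerivAt
      have h5 : HasDerivAt (fun w => g 0 * Complex.exp (h w))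
          (g 0 * (Complex.exp (h 0) * deriv h 0)) 0 := hh'.cexp.const_mul _
      refine h5.congr_of_eventuallyEq ?_
      filter_upwards [isOpen_ball.mem_nhds h00] with w hw
      exact hh w hw
    rw [hh0, Complex.exp_zero, one_mul] at hgder
    have hΓd : DifferentiableAt ℂ Complex.Gamma z₀ := by
      have := hnat 0 h00
      simp only [add_zero] at this
      exact Complex.differentiableAt_Gamma _ this
    have hgder2 : HasDerivAt g (deriv Complex.Gamma z₀ * Complex.exp (-(α * 0)) +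
        Complex.Gamma (z₀ + 0) * (Complex.exp (-(α * 0)) * (-(α * 1)))) 0 := by
      rw [hg]
      apply HasDerivAt.mul
      · have h5 : HasDerivAt Complex.Gamma (deriv Complex.Gamma z₀) (z₀ + 0) := by
          rw [add_zero]; exact hΓd.hasDerivAt
        have h6 := h5.comp_const_add z₀ 0
        exact h6
      · exact (((hasDerivAt_id (0:ℂ)).const_mul α).neg).cexp
    have h7 := hgder.unique hgder2
    simp only [mul_zero, neg_zero, Complex.exp_zero, mul_one, add_zero, one_mul] at h7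
    have hΓ0 : Complex.Gamma z₀ ≠ 0 := by rw [← hg0]; exact hgne 0 h00
    rw [hg0] at h7
    rw [logDeriv_apply]
    field_simp
    rw [mul_comm (deriv h 0)] 
    rw [h7]; ring
  rw [hld] at hderiv
  have hαn : ‖α‖ ≤ Real.log (1 + |y₀|) + 2 := by
    rw [hα]
    refine (norm_add_le _ _).trans ?_
    rw [norm_mul, Complex.norm_I, mul_one, Complex.norm_real, Real.norm_eq_abs, Complex.norm_real,
      Real.norm_eq_abs, abs_mul, hσ1, mul_one, abs_of_pos (by positivity : 0 < Real.pi / 2)]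
    rw [abs_of_nonneg (Real.log_nonneg (by linarith [abs_nonneg y₀]))]
    have := Real.pi_le_four
    linarith
  have h8 : ‖logDeriv Complex.Gamma z₀‖ ≤ ‖logDeriv Complex.Gamma z₀ - α‖ + ‖α‖ := by
    have := norm_add_le (logDeriv Complex.Gamma z₀ - α) α
    simpa using this
  linarith

/-- Log-derivative of the real Gamma factor in the right half of the critical strip. -/
lemma exists_logDeriv_Gammaℝ :
    ∃ C : ℝ, 0 ≤ C ∧ ∀ s : ℂ, 1/2 ≤ s.re → s.re ≤ 3/2 → 8 ≤ |s.im| →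
      ‖logDeriv Complex.Gammaℝ s‖ ≤ Real.log |s.im| / 2 + C := by
  obtain ⟨C, hC, h⟩ := exists_digamma
  refine ⟨C + 1 + Real.log Real.pi, by
    have := Real.log_nonneg (by linarith [Real.pi_gt_three] : (1:ℝ) ≤ Real.pi)
    linarith, ?_⟩
  intro s h1 h2 h3
  have hre : (s / 2).re = s.re / 2 := by simp
  have him : (s / 2).im = s.im / 2 := by simp
  have hz := h (s / 2) (by rw [hre]; linarith) (by rw [hre]; linarith)
    (by rw [him, abs_div, abs_two]; linarith)
  have hnat : ∀ m : ℕ, s / 2 ≠ -m := by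
    intro m hm
    have h5 := congrArg Complex.re hm
    rw [hre] at h5
    simp at h5
    have h6 : (0:ℝ) ≤ m := Nat.cast_nonneg m
    linarith
  have hΓd : DifferentiableAt ℂ Complex.Gamma (s / 2) := Complex.differentiableAt_Gamma _ hnat
  have hΓ0 : Complex.Gamma (s / 2) ≠ 0 := Complex.Gamma_ne_zero hnat
  have hpi : (Real.pi : ℂ) ≠ 0 := by exact_mod_cast Real.pi_ne_zero
  have e : logDeriv Complex.Gammaℝ s = -(Real.log Real.pi : ℂ) / 2 +
      logDeriv Complex.Gamma (s / 2) / 2 := by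
    have e1 : Complex.Gammaℝ = fun s : ℂ => (Real.pi : ℂ) ^ (-s / 2) * Complex.Gamma (s / 2) := by
      funext s; rw [Complex.Gammaℝ_def]
    have hp0 : (Real.pi : ℂ) ^ (-s / 2) ≠ 0 := by
      rw [Complex.cpow_def_of_ne_zero hpi]; exact Complex.exp_ne_zero _
    have d1 : HasDerivAt (fun s : ℂ => (Real.pi : ℂ) ^ (-s / 2))
        ((Real.pi : ℂ) ^ (-s / 2) * Complex.log Real.pi * (-1 / 2)) s := by
      have := (((hasDerivAt_id s).neg).div_const 2).const_cpow (c := (Real.pi : ℂ)) (Or.inl hpi)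
      simpa using this
    have d2 : HasDerivAt (fun s : ℂ => Complex.Gamma (s / 2))
        (deriv Complex.Gamma (s / 2) * (1 / 2)) s := by
      exact hΓd.hasDerivAt.comp s ((hasDerivAt_id s).div_const 2)
    have d3 : HasDerivAt (fun s : ℂ => (Real.pi : ℂ) ^ (-s / 2) * Complex.Gamma (s / 2)) _ s :=
      d1.mul d2
    rw [e1, logDeriv_apply, d3.deriv, logDeriv_apply]
    have hlog : Complex.log (Real.pi : ℂ) = (Real.log Real.pi : ℂ) := by
      rw [Complex.ofReal_log Real.pi_pos.le]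
    rw [hlog]
    field_simp
  rw [e]
  have hl0 : 0 ≤ Real.log Real.pi := Real.log_nonneg (by linarith [Real.pi_gt_three])
  have hl1 : Real.log (1 + |s.im / 2|) ≤ Real.log |s.im| := by
    apply Real.log_le_log (by positivity)
    rw [abs_div, abs_two]; linarith
  rw [him] at hz
  calc ‖-(Real.log Real.pi : ℂ) / 2 + logDeriv Complex.Gamma (s / 2) / 2‖
      ≤ ‖-(Real.log Real.pi : ℂ) / 2‖ + ‖logDeriv Complex.Gamma (s / 2) / 2‖ := norm_add_le _ _
    _ = Real.log Real.pi / 2 + ‖logDeriv Complex.Gamma (s / 2)‖ / 2 := by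
        rw [norm_div, norm_div, norm_neg, Complex.norm_real, Real.norm_eq_abs,
          abs_of_nonneg hl0]
        simp
    _ ≤ _ := by linarith

end Pool.Agent.Lib.MP_6bc78b_nt.LL
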