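import Mathlib
import Pool.Agent.Lib.MP_6bc78b_nt.HardyOrder

set_option autoImplicit false

open Complex Set Filter Topology

namespace Pool.Agent.Lib.MP_6bc78b_nt.LL

/-- The entire function `s (s-1) Λ(s)`. -/
noncomputable def xi (s : ℂ) : ℂ := s * (s - 1) * completedRiemannZeta₀ s + 1

lemma differentiable_xi : Differentiable ℂ xi :=
  (((by fun_prop : Differentiable ℂ fun s : ℂ => s * (s - 1))).mul
    differentiable_completedZeta₀).add_const 1

lemma xi_one_sub (s : ℂ) : xi (1 - s) = xi s := by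
  simp only [xi]
  rw [completedRiemannZeta₀_one_sub]
  ring

lemma xi_one : xi 1 = 1 := by simp [xi]

lemma xi_eq {s : ℂ} (hs : 0 < s.re) (hs1 : s ≠ 1) :
    xi s = s * (s - 1) * Gammaℝ s * riemannZeta s := by
  have hs0 : s ≠ 0 := by rintro rfl; simp at hs
  have h1 := completedRiemannZeta_eq s
  have h2 : riemannZeta s = completedRiemannZeta s / Gammaℝ s := riemannZeta_def_of_ne_zero hs0
  have hG : Gammaℝ s ≠ 0 := Gammaℝ_ne_zero_of_re_pos hs
  have h3 : Gammaℝ s * riemannZeta s = completedRiemannZeta s := by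
    rw [h2]; field_simp
  rw [mul_assoc, h3, h1, xi]
  have h4 : s - 1 ≠ 0 := sub_ne_zero.2 hs1
  have h5 : 1 - s ≠ 0 := sub_ne_zero.2 hs1.symm
  field_simp
  ring

lemma xi_ne_zero_of_one_le {s : ℂ} (hs : 1 ≤ s.re) : xi s ≠ 0 := by
  rcases eq_or_ne s 1 with rfl | hs1
  · rw [xi_one]; exact one_ne_zero
  · have h0 : 0 < s.re := by linarith
    have hs0 : s ≠ 0 := by rintro rfl; simp at h0
    rw [xi_eq h0 hs1]
    exact mul_ne_zero (mul_ne_zero (mul_ne_zero hs0 (sub_ne_zero.2 hs1))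
      (Gammaℝ_ne_zero_of_re_pos h0)) (riemannZeta_ne_zero_of_one_le_re hs)

lemma xi_zero_re {s : ℂ} (hs : xi s = 0) : 0 < s.re ∧ s.re < 1 := by
  constructor
  · by_contra h
    push Not at h
    have h1 : 1 ≤ (1 - s).re := by simp only [sub_re, one_re]; linarith
    exact xi_ne_zero_of_one_le h1 (by rw [xi_one_sub]; exact hs)
  · by_contra h
    push Not at h
    exact xi_ne_zero_of_one_le h hs

lemma xi_zero_zeta {s : ℂ} (hs : xi s = 0) : riemannZeta s = 0 := by
  obtain ⟨h0, h1⟩ := xi_zero_re hs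
  have hs1 : s ≠ 1 := by rintro rfl; simp at h1
  have hs0 : s ≠ 0 := by rintro rfl; simp at h0
  rw [xi_eq h0 hs1] at hs
  have h2 : s * (s - 1) * Gammaℝ s ≠ 0 :=
    mul_ne_zero (mul_ne_zero hs0 (sub_ne_zero.2 hs1)) (Gammaℝ_ne_zero_of_re_pos h0)
  exact (mul_eq_zero.1 hs).resolve_left h2

lemma xi_conj (s : ℂ) : xi ((starRingEnd ℂ) s) = (starRingEnd ℂ) (xi s) := by
  have key : ∀ s : ℂ, 0 < s.re → xi ((starRingEnd ℂ) s) = (starRingEnd ℂ) (xi s) := by
    intro s hs
    rcases eq_or_ne s 1 with rfl | hs1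
    · simp [xi_one]
    · have h1 : (starRingEnd ℂ) s ≠ 1 := by
        intro h
        apply hs1
        have := congrArg (starRingEnd ℂ) h
        simpa using this
      rw [xi_eq (by simpa using hs) h1, xi_eq hs hs1, Gammaℝ_conj, riemannZeta_conj]
      simp
  rcases lt_or_ge 0 s.re with h | h
  · exact key s h
  · have h1 := key (1 - s) (by simp only [sub_re, one_re]; linarith)
    rw [xi_one_sub] at h1
    rw [← h1, ← xi_one_sub]
    congr 1
    simp

lemma logDeriv_xi_one_sub (s : ℂ) : logDeriv xi (1 - s) = -logDeriv xi s := by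
  have h1 : deriv xi s = -deriv xi (1 - s) := by
    have h2 : HasDerivAt (fun s => xi (1 - s)) (deriv xi (1 - s) * (-1)) s := by
      have h3 : HasDerivAt xi (deriv xi (1 - s)) (1 - s) := (differentiable_xi (1 - s)).hasDerivAt
      have h4 : HasDerivAt (fun s : ℂ => 1 - s) (-1) s := by
        simpa using (hasDerivAt_id s).const_sub 1
      exact h3.comp s h4
    have h5 : (fun s => xi (1 - s)) = xi := funext xi_one_sub
    rw [h5] at h2
    rw [h2.deriv]; ring
  rw [logDeriv_apply, logDeriv_apply, xi_one_sub, h1]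
  ring

lemma logDeriv_xi_conj (s : ℂ) :
    logDeriv xi ((starRingEnd ℂ) s) = (starRingEnd ℂ) (logDeriv xi s) := by
  have h1 : deriv xi ((starRingEnd ℂ) s) = (starRingEnd ℂ) (deriv xi s) := by
    have h2 : HasDerivAt xi (deriv xi s) s := (differentiable_xi s).hasDerivAt
    have h3 := h2.conj_conj
    have h4 : ((starRingEnd ℂ) ∘ xi ∘ (starRingEnd ℂ) : ℂ → ℂ) = xi := by
      funext z
      simp only [Function.comp]
      rw [xi_conj, Complex.conj_conj]
    rw [h4] at h3
    exact h3.deriv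
  rw [logDeriv_apply, logDeriv_apply, h1, xi_conj, map_div₀]

lemma differentiableAt_Gammaℝ {z : ℂ} (hz : 0 < z.re) : DifferentiableAt ℂ Gammaℝ z := by
  have h2 : DifferentiableAt ℂ (fun s => (Gammaℝ s)⁻¹) z := differentiable_Gammaℝ_inv z
  have h3 := h2.fun_inv (inv_ne_zero (Gammaℝ_ne_zero_of_re_pos hz))
  simpa using h3

lemma xi_order {s : ℂ} (hs : 0 < s.re) (hs1 : s ≠ 1) :
    analyticOrderAt xi s = analyticOrderAt riemannZeta s := by
  have hs0 : s ≠ 0 := by rintro rfl; simp at hs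
  have h1 : xi =ᶠ[𝓝 s] (fun s => s * (s - 1) * Gammaℝ s) * riemannZeta := by
    have ho : IsOpen {z : ℂ | 0 < z.re ∧ z ≠ 1} :=
      (isOpen_lt continuous_const Complex.continuous_re).inter isOpen_ne
    filter_upwards [ho.mem_nhds ⟨hs, hs1⟩] with z hz
    rw [xi_eq hz.1 hz.2]; rfl
  have h2 : AnalyticAt ℂ (fun s : ℂ => s * (s - 1) * Gammaℝ s) s := by
    have ho : IsOpen {z : ℂ | 0 < z.re} := isOpen_lt continuous_const Complex.continuous_re
    have hd : DifferentiableOn ℂ (fun s : ℂ => s * (s - 1) * Gammaℝ s) {z : ℂ | 0 < z.re} := by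
      intro z hz
      exact (((by fun_prop : DifferentiableAt ℂ (fun s : ℂ => s * (s - 1)) z)).mul
        (differentiableAt_Gammaℝ hz)).differentiableWithinAt
    exact hd.analyticAt (ho.mem_nhds hs)
  have h3 : AnalyticAt ℂ riemannZeta s := analyticOn_riemannZeta s hs1
  rw [analyticOrderAt_congr h1, analyticOrderAt_mul h2 h3]
  have h4 : analyticOrderAt (fun s : ℂ => s * (s - 1) * Gammaℝ s) s = 0 := by
    rw [h2.analyticOrderAt_eq_zero]
    exact mul_ne_zero (mul_ne_zero hs0 (sub_ne_zero.2 hs1)) (Gammaℝ_ne_zero_of_re_pos hs)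
  rw [h4, zero_add]

/-- The part of `ξ'/ξ` without zeta. -/
noncomputable def gPart (s : ℂ) : ℂ := 1 / s + 1 / (s - 1) + logDeriv Gammaℝ s

lemma logDeriv_xi_eq {s : ℂ} (hs : 0 < s.re) (hs1 : s ≠ 1) (hz : riemannZeta s ≠ 0) :
    logDeriv xi s = gPart s + logDeriv riemannZeta s := by
  have hs0 : s ≠ 0 := by rintro rfl; simp at hs
  have h1 : xi =ᶠ[𝓝 s] fun s => (s * (s - 1) * Gammaℝ s) * riemannZeta s := by
    have ho : IsOpen {z : ℂ | 0 < z.re ∧ z ≠ 1} :=
      (isOpen_lt continuous_const Complex.continuous_re).inter isOpen_ne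
    filter_upwards [ho.mem_nhds ⟨hs, hs1⟩] with z hz
    rw [xi_eq hz.1 hz.2]
  have hs1' : s - 1 ≠ 0 := sub_ne_zero.2 hs1
  have hG := Gammaℝ_ne_zero_of_re_pos hs
  have hGd := differentiableAt_Gammaℝ hs
  have hzd : DifferentiableAt ℂ riemannZeta s := differentiableAt_riemannZeta hs1
  rw [(logDeriv_congr_nhds h1).eq_of_nhds,
    logDeriv_mul (f := fun s => s * (s - 1) * Gammaℝ s) s
      (mul_ne_zero (mul_ne_zero hs0 hs1') hG) hz
      ((by fun_prop : DifferentiableAt ℂ (fun s : ℂ => s * (s - 1)) s).mul hGd) hzd,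
    logDeriv_mul (f := fun s => s * (s - 1)) s (mul_ne_zero hs0 hs1') hG
      (by fun_prop) hGd,
    logDeriv_mul (f := fun s => s) (g := fun s => s - 1) s hs0 hs1' (by fun_prop) (by fun_prop)]
  have h2 : logDeriv (fun s : ℂ => s) s = 1 / s := logDeriv_id' s
  have h3 : logDeriv (fun s : ℂ => s - 1) s = 1 / (s - 1) := by
    rw [logDeriv_apply, deriv_sub_const, deriv_id'']
  rw [h2, h3, gPart]

end Pool.Agent.Lib.MP_6bc78b_nt.LL
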