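import Mathlib
import Pool.Agent.Lib.MP_6bc78b_nt.H11.ZetaLocal

set_option autoImplicit false

open Complex Set Filter Topology Metric MeasureTheory

namespace Pool.Agent.Lib.MP_6bc78b_nt.LL

open Pool.Agent.Lib.MP_6bc78b_nt Pool.Agent.Lib.MP_6bc78b_nt.H11

/-- A point of an interval of length `1/2` away from finitely many points. -/
lemma exists_avoid (u : ℝ) (B : Finset ℝ) (F : Set ℝ) (hF : F.Finite) (n : ℕ) (hn : B.card ≤ n) :
    ∃ v ∈ Icc (u - 1/4) (u + 1/4), v ∉ F ∧ ∀ b ∈ B, 1 / (8 * ((n:ℝ) + 1)) ≤ |v - b| := by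
  by_contra hcon
  push Not at hcon
  have hn0 : (0:ℝ) < (n:ℝ) + 1 := by positivity
  obtain ⟨δ, hδ⟩ : ∃ δ : ℝ, δ = 1 / (8 * ((n:ℝ) + 1)) := ⟨_, rfl⟩
  have hδ0 : 0 < δ := by rw [hδ]; positivity
  have hsub : Icc (u - 1/4) (u + 1/4) ⊆ F ∪ ⋃ b ∈ B, ball b δ := by
    intro v hv
    by_cases hvF : v ∈ F
    · exact Or.inl hvF
    · right
      obtain ⟨b, hb, hlt⟩ := hcon v hv hvF
      simp only [mem_iUnion, exists_prop]
      refine ⟨b, hb, ?_⟩
      rw [mem_ball, Real.dist_eq, hδ]; exact hlt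
  have h1 : volume (Icc (u - 1/4) (u + 1/4)) ≤ ENNReal.ofReal (2 * δ * n) := by
    refine (measure_mono hsub).trans ?_
    refine (measure_union_le _ _).trans ?_
    rw [hF.measure_zero, zero_add]
    refine (measure_biUnion_finset_le _ _).trans ?_
    simp only [Real.volume_ball, Finset.sum_const, nsmul_eq_mul]
    rw [← ENNReal.ofReal_natCast, ← ENNReal.ofReal_mul (by positivity)]
    apply ENNReal.ofReal_le_ofReal
    have : (B.card : ℝ) ≤ n := by exact_mod_cast hn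
    nlinarith
  rw [Real.volume_Icc] at h1
  have h2 : (u + 1/4 - (u - 1/4) : ℝ) ≤ 2 * δ * n := by
    rwa [ENNReal.ofReal_le_ofReal_iff (by positivity)] at h1
  have h3 : 2 * δ * n ≤ 1/4 := by
    rw [hδ]
    have : 2 * (1 / (8 * ((n:ℝ) + 1))) * n = (1/4) * (n / ((n:ℝ) + 1)) := by
      field_simp; ring
    rw [this]
    have : (n:ℝ) / ((n:ℝ) + 1) ≤ 1 := by
      rw [div_le_one hn0]; linarith
    linarith
  linarith

lemma zsum_le {Z : Multiset ℂ} {z : ℂ} {d : ℝ} (hd : 0 < d) (h : ∀ ρ ∈ Z, d ≤ ‖z - ρ‖) :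
    zsum Z z ≤ Z.card * (1 / d) := by
  induction Z using Multiset.induction_on with
  | empty => simp
  | cons a Z ih =>
    rw [zsum_cons, Multiset.card_cons]
    have h1 := ih (fun ρ hρ => h ρ (Multiset.mem_cons_of_mem hρ))
    have h2 : 1 / ‖z - a‖ ≤ 1 / d :=
      one_div_le_one_div_of_le hd (h a (Multiset.mem_cons_self a Z))
    push_cast
    linarith

/-- Heights on which `ζ'/ζ` is `O(log²)`. -/
theorem exists_good_height :
    ∃ C : ℝ, 0 < C ∧ ∀ u : ℝ, 3 ≤ |u| → ∃ v ∈ Icc (u - 1/4) (u + 1/4), ∀ x ∈ Icc (1/2 : ℝ) 2,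
      riemannZeta (x + v * I) ≠ 0 ∧
      ‖logDeriv riemannZeta (x + v * I)‖ ≤ C * (Real.log |u|) ^ 2 := by
  have hK : (0:ℝ) < KZ := by unfold KZ; norm_num
  have hK1 : (1:ℝ) ≤ KZ := by unfold KZ; norm_num
  refine ⟨3 * (17 * KZ ^ 2), by positivity, ?_⟩
  intro u hu
  obtain ⟨Z, hcard, hZ, hmain⟩ := zeta_local hu
  have hL1 : 1 ≤ Real.log |u| := H11.log_ge_one hu
  obtain ⟨L, hL⟩ : ∃ L, L = Real.log |u| := ⟨_, rfl⟩
  rw [← hL] at hcard hmain hL1 ⊢
  -- finite set of ordinates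
  have hcpt : IsCompact (Icc (1/2:ℝ) 2 ×ℂ Icc (u - 1/4) (u + 1/4)) :=
    isCompact_Icc.reProdIm isCompact_Icc
  have hfin := hcpt.inter_riemannZetaZeros_finite
  obtain ⟨F, hFdef⟩ : ∃ F : Set ℝ, F = Complex.im ''
      ((Icc (1/2:ℝ) 2 ×ℂ Icc (u - 1/4) (u + 1/4)) ∩ riemannZetaZeros) := ⟨_, rfl⟩
  have hFfin : F.Finite := by rw [hFdef]; exact hfin.image _
  obtain ⟨B, hB⟩ : ∃ B : Finset ℝ, B = (Z.map Complex.im).toFinset := ⟨_, rfl⟩
  have hBcard : B.card ≤ Z.card := by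
    rw [hB]
    refine (Multiset.toFinset_card_le _).trans ?_
    rw [Multiset.card_map]
  obtain ⟨v, hv, hvF, hvB⟩ := exists_avoid u B F hFfin Z.card hBcard
  refine ⟨v, hv, ?_⟩
  intro x hx
  obtain ⟨s, hs⟩ : ∃ s : ℂ, s = x + v * I := ⟨_, rfl⟩
  have hsre : s.re = x := by rw [hs]; simp
  have hsim : s.im = v := by rw [hs]; simp
  rw [← hs]
  have hs0 : riemannZeta s ≠ 0 := by
    intro h0
    apply hvF
    rw [hFdef]
    refine ⟨s, ⟨?_, h0⟩, hsim⟩
    rw [Complex.mem_reProdIm, hsre, hsim]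
    exact ⟨hx, hv⟩
  refine ⟨hs0, ?_⟩
  have hd := hmain s (by rw [hsre]; exact hx.1) (by rw [hsre]; linarith [hx.2])
    (by rw [hsim, abs_le]; constructor <;> linarith [hv.1, hv.2]) hs0 1
  simp only [iteratedDeriv_one, Nat.factorial_one, Nat.cast_one, mul_one, pow_one] at hd
  have hn0 : (0:ℝ) < (Z.card:ℝ) + 1 := by positivity
  have hzs : zsum Z s ≤ Z.card * (1 / (1 / (8 * ((Z.card:ℝ) + 1)))) := by
    apply zsum_le (by positivity)
    intro ρ hρ
    have h1 := hvB ρ.im (by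
      rw [hB, Multiset.mem_toFinset, Multiset.mem_map]
      exact ⟨ρ, hρ, rfl⟩)
    refine h1.trans ?_
    have h2 := Complex.abs_im_le_norm (s - ρ)
    rw [Complex.sub_im, hsim] at h2
    exact h2
  rw [one_div_one_div] at hzs
  have hKL : 1 ≤ KZ * L := by nlinarith
  have hzs2 : zsum Z s ≤ 16 * (KZ * L) ^ 2 := by
    refine hzs.trans ?_
    have h0 : (0:ℝ) ≤ Z.card := Nat.cast_nonneg _
    nlinarith
  have hsum : zsum Z s + KZ * L ≤ 17 * KZ ^ 2 * L ^ 2 := by nlinarith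
  have hzn : 0 < ‖riemannZeta s‖ := norm_pos_iff.2 hs0
  rw [logDeriv_apply, norm_div, div_le_iff₀ hzn]
  refine hd.trans ?_
  apply mul_le_mul_of_nonneg_right _ hzn.le
  have he : Real.exp 1 ≤ 3 := by linarith [Real.exp_one_lt_d9]
  have hz0 : 0 ≤ zsum Z s + KZ * L := by
    have := zsum_nonneg Z s
    linarith
  calc Real.exp 1 * (zsum Z s + KZ * L) ≤ 3 * (17 * KZ ^ 2 * L ^ 2) :=
        mul_le_mul he hsum hz0 (by norm_num)
    _ = 3 * (17 * KZ ^ 2) * L ^ 2 := by ring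

/-- `ζ'/ζ` is bounded on vertical lines to the right of `1`. -/
lemma exists_logDeriv_zeta_bound {σ : ℝ} (hσ : 1 < σ) :
    ∃ M : ℝ, 0 < M ∧ ∀ s : ℂ, s.re = σ → ‖logDeriv riemannZeta s‖ ≤ M := by
  have hs1 : LSeriesSummable (fun n => ((ArithmeticFunction.vonMangoldt n : ℝ) : ℂ)) (σ : ℂ) :=
    ArithmeticFunction.LSeriesSummable_vonMangoldt (by simpa using hσ)
  refine ⟨(∑' n, ‖LSeries.term (fun n => ((ArithmeticFunction.vonMangoldt n : ℝ) : ℂ)) (σ : ℂ) n‖) + 1,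
    by positivity, ?_⟩
  intro s hs
  have h1 : 1 < s.re := by rw [hs]; exact hσ
  have h2 := ArithmeticFunction.LSeries_vonMangoldt_eq_deriv_riemannZeta_div h1
  have h3 : logDeriv riemannZeta s =
      -LSeries (fun n => ((ArithmeticFunction.vonMangoldt n : ℝ) : ℂ)) s := by
    rw [logDeriv_apply]
    have h4 : LSeries (fun n => ((ArithmeticFunction.vonMangoldt n : ℝ) : ℂ)) s =
        -deriv riemannZeta s / riemannZeta s := h2
    rw [h4]; ring
  rw [h3, norm_neg]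
  have hle : ∀ n, ‖LSeries.term (fun n => ((ArithmeticFunction.vonMangoldt n : ℝ) : ℂ)) s n‖ ≤
      ‖LSeries.term (fun n => ((ArithmeticFunction.vonMangoldt n : ℝ) : ℂ)) (σ : ℂ) n‖ := by
    intro n
    exact LSeries.norm_term_le_of_re_le_re _ (by simp [hs]) n
  have hsumm := hs1.norm
  have hsum' : Summable fun n =>
      ‖LSeries.term (fun n => ((ArithmeticFunction.vonMangoldt n : ℝ) : ℂ)) s n‖ :=
    hsumm.of_nonneg_of_le (fun n => norm_nonneg _) hle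
  have h5 : ‖LSeries (fun n => ((ArithmeticFunction.vonMangoldt n : ℝ) : ℂ)) s‖ ≤
      ∑' n, ‖LSeries.term (fun n => ((ArithmeticFunction.vonMangoldt n : ℝ) : ℂ)) s n‖ :=
    norm_tsum_le_tsum_norm hsum'
  have h6 := hsum'.tsum_le_tsum hle hsumm
  linarith

end Pool.Agent.Lib.MP_6bc78b_nt.LL
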