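import Mathlib

set_option autoImplicit false

open Complex Set Filter Topology MeasureTheory intervalIntegral

namespace Pool.Agent.Lib.MP_6bc78b_nt.LL

/-- Integral over the boundary of the rectangle `[a,b] × [c,d]`, counterclockwise. -/
noncomputable def rectI (f : ℂ → ℂ) (a b c d : ℝ) : ℂ :=
  (∫ x : ℝ in a..b, f (x + c * I)) - (∫ x : ℝ in a..b, f (x + d * I)) +
    I * (∫ y : ℝ in c..d, f (b + y * I)) - I * (∫ y : ℝ in c..d, f (a + y * I))

/-- The boundary of the rectangle. -/
def bdry (a b c d : ℝ) : Set ℂ :=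
  {z : ℂ | (z.re = a ∨ z.re = b ∨ z.im = c ∨ z.im = d) ∧ (a ≤ z.re ∧ z.re ≤ b) ∧
    (c ≤ z.im ∧ z.im ≤ d)}

variable {a b c d : ℝ}

lemma mem_bot (hcd : c ≤ d) {x : ℝ} (hx : x ∈ Icc a b) : (x + c * I : ℂ) ∈ bdry a b c d := by
  refine ⟨?_, ?_, ?_⟩ <;> simp [hx.1, hx.2, hcd]

lemma mem_top (hcd : c ≤ d) {x : ℝ} (hx : x ∈ Icc a b) : (x + d * I : ℂ) ∈ bdry a b c d := by
  refine ⟨?_, ?_, ?_⟩ <;> simp [hx.1, hx.2, hcd]

lemma mem_right (hab : a ≤ b) {y : ℝ} (hy : y ∈ Icc c d) : (b + y * I : ℂ) ∈ bdry a b c d := by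
  refine ⟨?_, ?_, ?_⟩ <;> simp [hy.1, hy.2, hab]

lemma mem_left (hab : a ≤ b) {y : ℝ} (hy : y ∈ Icc c d) : (a + y * I : ℂ) ∈ bdry a b c d := by
  refine ⟨?_, ?_, ?_⟩ <;> simp [hy.1, hy.2, hab]

lemma cont_bot (hab : a ≤ b) (hcd : c ≤ d) {f : ℂ → ℂ} (hf : ContinuousOn f (bdry a b c d)) :
    IntervalIntegrable (fun x : ℝ => f (x + c * I)) volume a b := by
  apply ContinuousOn.intervalIntegrable
  rw [uIcc_of_le hab]
  exact hf.comp (by fun_prop) (fun x hx => mem_bot hcd hx)

lemma cont_top (hab : a ≤ b) (hcd : c ≤ d) {f : ℂ → ℂ} (hf : ContinuousOn f (bdry a b c d)) :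
    IntervalIntegrable (fun x : ℝ => f (x + d * I)) volume a b := by
  apply ContinuousOn.intervalIntegrable
  rw [uIcc_of_le hab]
  exact hf.comp (by fun_prop) (fun x hx => mem_top hcd hx)

lemma cont_right (hab : a ≤ b) (hcd : c ≤ d) {f : ℂ → ℂ} (hf : ContinuousOn f (bdry a b c d)) :
    IntervalIntegrable (fun y : ℝ => f (b + y * I)) volume c d := by
  apply ContinuousOn.intervalIntegrable
  rw [uIcc_of_le hcd]
  exact hf.comp (by fun_prop) (fun x hx => mem_right hab hx)

lemma cont_left (hab : a ≤ b) (hcd : c ≤ d) {f : ℂ → ℂ} (hf : ContinuousOn f (bdry a b c d)) :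
    IntervalIntegrable (fun y : ℝ => f (a + y * I)) volume c d := by
  apply ContinuousOn.intervalIntegrable
  rw [uIcc_of_le hcd]
  exact hf.comp (by fun_prop) (fun x hx => mem_left hab hx)

lemma rectI_congr (hab : a ≤ b) (hcd : c ≤ d) {f g : ℂ → ℂ} (h : EqOn f g (bdry a b c d)) :
    rectI f a b c d = rectI g a b c d := by
  have h1 : (∫ x : ℝ in a..b, f (x + c * I)) = ∫ x : ℝ in a..b, g (x + c * I) :=
    integral_congr fun x hx => h (mem_bot hcd (by rwa [uIcc_of_le hab] at hx))
  have h2 : (∫ x : ℝ in a..b, f (x + d * I)) = ∫ x : ℝ in a..b, g (x + d * I) :=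
    integral_congr fun x hx => h (mem_top hcd (by rwa [uIcc_of_le hab] at hx))
  have h3 : (∫ y : ℝ in c..d, f (b + y * I)) = ∫ y : ℝ in c..d, g (b + y * I) :=
    integral_congr fun x hx => h (mem_right hab (by rwa [uIcc_of_le hcd] at hx))
  have h4 : (∫ y : ℝ in c..d, f (a + y * I)) = ∫ y : ℝ in c..d, g (a + y * I) :=
    integral_congr fun x hx => h (mem_left hab (by rwa [uIcc_of_le hcd] at hx))
  simp only [rectI, h1, h2, h3, h4]

lemma rectI_add (hab : a ≤ b) (hcd : c ≤ d) {f g : ℂ → ℂ} (hf : ContinuousOn f (bdry a b c d))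
    (hg : ContinuousOn g (bdry a b c d)) :
    rectI (fun z => f z + g z) a b c d = rectI f a b c d + rectI g a b c d := by
  simp only [rectI]
  rw [integral_add (cont_bot hab hcd hf) (cont_bot hab hcd hg),
    integral_add (cont_top hab hcd hf) (cont_top hab hcd hg),
    integral_add (cont_right hab hcd hf) (cont_right hab hcd hg),
    integral_add (cont_left hab hcd hf) (cont_left hab hcd hg)]
  ring

lemma rectI_const_mul (r : ℂ) (f : ℂ → ℂ) :
    rectI (fun z => r * f z) a b c d = r * rectI f a b c d := by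
  simp only [rectI, intervalIntegral.integral_const_mul]
  ring

lemma rectI_sum (hab : a ≤ b) (hcd : c ≤ d) {ι : Type*} (Z : Finset ι) {f : ι → ℂ → ℂ}
    (hf : ∀ i ∈ Z, ContinuousOn (f i) (bdry a b c d)) :
    rectI (fun z => ∑ i ∈ Z, f i z) a b c d = ∑ i ∈ Z, rectI (f i) a b c d := by
  classical
  induction Z using Finset.induction_on with
  | empty => simp [rectI]
  | insert i Z hi ih =>
    have h1 : ∀ j ∈ Z, ContinuousOn (f j) (bdry a b c d) := fun j hj =>
      hf j (Finset.mem_insert_of_mem hj)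
    have e : (fun z => ∑ j ∈ insert i Z, f j z) = fun z => f i z + ∑ j ∈ Z, f j z := by
      funext z; rw [Finset.sum_insert hi]
    rw [e, rectI_add hab hcd (hf i (Finset.mem_insert_self _ _))
      (continuousOn_finsetSum _ h1), ih h1, Finset.sum_insert hi]

lemma rectI_zero (hab : a ≤ b) (hcd : c ≤ d) {f : ℂ → ℂ}
    (hf : DifferentiableOn ℂ f (Icc a b ×ℂ Icc c d)) : rectI f a b c d = 0 := by
  have h := Complex.integral_boundary_rect_eq_zero_of_differentiableOn f (a + c * I) (b + d * I)
    (by simpa [uIcc_of_le hab, uIcc_of_le hcd] using hf)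
  simpa [rectI] using h

/-- The winding number of the rectangle. -/
lemma rectI_inv_zero (ha : a < 0) (hb : 0 < b) (hc : c < 0) (hd : 0 < d) :
    rectI (fun z => 1 / z) a b c d = 2 * Real.pi * I := by
  have hab : a ≤ b := by linarith
  have hcd : c ≤ d := by linarith
  -- bottom
  have h1 : (∫ x : ℝ in a..b, 1 / ((x : ℂ) + c * I)) =
      Complex.log (b + c * I) - Complex.log (a + c * I) := by
    apply integral_eq_sub_of_hasDerivAt (f := fun x : ℝ => Complex.log (x + c * I))
    · intro x _
      have hm : ((x : ℂ) + c * I) ∈ slitPlane := by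
        rw [mem_slitPlane_iff]; right; simp [hc.ne]
      have h2 : HasDerivAt (fun x : ℝ => ((x : ℂ) + c * I)) 1 x :=
        (Complex.ofRealCLM.hasDerivAt (x := x)).add_const _ |>.congr_deriv (by simp)
      exact h2.clog_real hm
    · apply ContinuousOn.intervalIntegrable
      apply ContinuousOn.div (by fun_prop) (by fun_prop)
      intro x _ h
      have := congrArg Complex.im h
      simp at this
      exact hc.ne this
  have h2 : (∫ x : ℝ in a..b, 1 / ((x : ℂ) + d * I)) =
      Complex.log (b + d * I) - Complex.log (a + d * I) := by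
    apply integral_eq_sub_of_hasDerivAt (f := fun x : ℝ => Complex.log (x + d * I))
    · intro x _
      have hm : ((x : ℂ) + d * I) ∈ slitPlane := by
        rw [mem_slitPlane_iff]; right; simp [hd.ne']
      have h2 : HasDerivAt (fun x : ℝ => ((x : ℂ) + d * I)) 1 x :=
        (Complex.ofRealCLM.hasDerivAt (x := x)).add_const _ |>.congr_deriv (by simp)
      exact h2.clog_real hm
    · apply ContinuousOn.intervalIntegrable
      apply ContinuousOn.div (by fun_prop) (by fun_prop)
      intro x _ h
      have := congrArg Complex.im h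
      simp at this
      exact hd.ne' this
  have hI : ∀ (r : ℝ) (y : ℝ), HasDerivAt (fun y : ℝ => ((r : ℂ) + y * I)) I y := by
    intro r y
    have h3 : HasDerivAt (fun y : ℝ => (y : ℂ) * I) (1 * I) y :=
      (Complex.ofRealCLM.hasDerivAt (x := y)).mul_const I |>.congr_deriv (by simp)
    have h4 := h3.const_add (r : ℂ)
    rwa [one_mul] at h4
  have h3 : I * (∫ y : ℝ in c..d, 1 / ((b : ℂ) + y * I)) =
      Complex.log (b + d * I) - Complex.log (b + c * I) := by
    rw [← intervalIntegral.integral_const_mul]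
    apply integral_eq_sub_of_hasDerivAt (f := fun y : ℝ => Complex.log (b + y * I))
    · intro y _
      have hm : ((b : ℂ) + y * I) ∈ slitPlane := by
        rw [mem_slitPlane_iff]; left; simp [hb]
      exact ((hI b y).clog_real hm).congr_deriv (by ring)
    · apply ContinuousOn.intervalIntegrable
      apply ContinuousOn.mul (by fun_prop)
      apply ContinuousOn.div (by fun_prop) (by fun_prop)
      intro x _ h
      have := congrArg Complex.re h
      simp at this
      exact hb.ne' this
  have h4 : I * (∫ y : ℝ in c..d, 1 / ((a : ℂ) + y * I)) =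
      Complex.log (-(a + d * I)) - Complex.log (-(a + c * I)) := by
    rw [← intervalIntegral.integral_const_mul]
    apply integral_eq_sub_of_hasDerivAt (f := fun y : ℝ => Complex.log (-(a + y * I)))
    · intro y _
      have hm : (-((a : ℂ) + y * I)) ∈ slitPlane := by
        rw [mem_slitPlane_iff]; left; simp [ha]
      have hne : (a : ℂ) + y * I ≠ 0 := by
        intro h
        have := congrArg Complex.re h
        simp at this
        exact ha.ne this
      refine ((hI a y).fun_neg.clog_real hm).congr_deriv ?_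
      field_simp
    · apply ContinuousOn.intervalIntegrable
      apply ContinuousOn.mul (by fun_prop)
      apply ContinuousOn.div (by fun_prop) (by fun_prop)
      intro x _ h
      have := congrArg Complex.re h
      simp at this
      exact ha.ne this
  have h5 : Complex.log (-(a + d * I)) = Complex.log (a + d * I) - Real.pi * I := by
    have him : 0 < (a + d * I : ℂ).im := by simpa using hd
    rw [Complex.log, Complex.log, norm_neg, Complex.arg_neg_eq_arg_sub_pi_of_im_pos him]
    push_cast; ring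
  have h6 : Complex.log (-(a + c * I)) = Complex.log (a + c * I) + Real.pi * I := by
    have him : (a + c * I : ℂ).im < 0 := by simpa using hc
    rw [Complex.log, Complex.log, norm_neg, Complex.arg_neg_eq_arg_add_pi_of_im_neg him]
    push_cast; ring
  simp only [rectI]
  rw [h1, h2, h3, h4, h5, h6]
  ring

lemma rectI_inv {w : ℂ} (ha : a < w.re) (hb : w.re < b) (hc : c < w.im) (hd : w.im < d) :
    rectI (fun z => 1 / (z - w)) a b c d = 2 * Real.pi * I := by
  rw [← rectI_inv_zero (a := a - w.re) (b := b - w.re) (c := c - w.im) (d := d - w.im)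
    (by linarith) (by linarith) (by linarith) (by linarith)]
  simp only [rectI]
  have hw : (w : ℂ) = w.re + w.im * I := (Complex.re_add_im w).symm
  congr 1
  · congr 1
    · congr 1
      · rw [← intervalIntegral.integral_comp_sub_right
          (fun x : ℝ => 1 / ((x : ℂ) + ((c - w.im : ℝ) : ℂ) * I)) w.re]
        apply integral_congr
        intro x _
        simp only
        congr 1
        nth_rewrite 1 [hw]
        push_cast; ring
      · rw [← intervalIntegral.integral_comp_sub_right
          (fun x : ℝ => 1 / ((x : ℂ) + ((d - w.im : ℝ) : ℂ) * I)) w.re]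
        apply integral_congr
        intro x _
        simp only
        congr 1
        nth_rewrite 1 [hw]
        push_cast; ring
    · congr 1
      rw [← intervalIntegral.integral_comp_sub_right
          (fun y : ℝ => 1 / (((b - w.re : ℝ) : ℂ) + (y : ℂ) * I)) w.im]
      apply integral_congr
      intro x _
      simp only
      congr 1
      nth_rewrite 1 [hw]
      push_cast; ring
  · congr 1
    rw [← intervalIntegral.integral_comp_sub_right
        (fun y : ℝ => 1 / (((a - w.re : ℝ) : ℂ) + (y : ℂ) * I)) w.im]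
    apply integral_congr
    intro x _
    simp only
    congr 1
    nth_rewrite 1 [hw]
    push_cast; ring

lemma not_mem_bdry {w : ℂ} (ha : a < w.re) (hb : w.re < b) (hc : c < w.im) (hd : w.im < d)
    {z : ℂ} (hz : z ∈ bdry a b c d) : z ≠ w := by
  rintro rfl
  rcases hz.1 with h | h | h | h <;> linarith

lemma rectI_cauchy {k : ℂ → ℂ} (hk : Differentiable ℂ k) {w : ℂ} (ha : a < w.re) (hb : w.re < b)
    (hc : c < w.im) (hd : w.im < d) :
    rectI (fun z => k z / (z - w)) a b c d = 2 * Real.pi * I * k w := by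
  have hab : a ≤ b := by linarith
  have hcd : c ≤ d := by linarith
  have h1 : rectI (fun z => k z / (z - w)) a b c d =
      rectI (fun z => dslope k w z + k w * (1 / (z - w))) a b c d := by
    apply rectI_congr hab hcd
    intro z hz
    have hne := not_mem_bdry ha hb hc hd hz
    simp only
    rw [dslope_of_ne _ hne, slope_def_field]
    have := sub_ne_zero.2 hne
    field_simp
    ring
  have hds : Differentiable ℂ (dslope k w) := by
    rw [← differentiableOn_univ]
    exact (Complex.differentiableOn_dslope univ_mem).2 hk.differentiableOn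
  rw [h1, rectI_add hab hcd hds.continuous.continuousOn, rectI_const_mul,
    rectI_zero hab hcd hds.differentiableOn, rectI_inv ha hb hc hd]
  · ring
  · apply ContinuousOn.mul continuousOn_const
    apply ContinuousOn.div (by fun_prop) (by fun_prop)
    intro z hz
    exact sub_ne_zero.2 (not_mem_bdry ha hb hc hd hz)

/-- The argument principle with a weight, for a rectangle. -/
theorem rectI_logDeriv {F h k : ℂ → ℂ} (hk : Differentiable ℂ k) (hh : Differentiable ℂ h)
    (hab : a ≤ b) (hcd : c ≤ d)
    (Z : Finset ℂ) (m : ℂ → ℕ) (hF : ∀ z, F z = (∏ w ∈ Z, (z - w) ^ m w) * h z)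
    (hZ : ∀ w ∈ Z, (a < w.re ∧ w.re < b) ∧ (c < w.im ∧ w.im < d))
    (h0 : ∀ z : ℂ, a ≤ z.re → z.re ≤ b → c ≤ z.im → z.im ≤ d → h z ≠ 0) :
    rectI (fun z => logDeriv F z * k z) a b c d = 2 * Real.pi * I * ∑ w ∈ Z, (m w : ℂ) * k w := by
  have hFeq : F = fun z => (∏ w ∈ Z, (z - w) ^ m w) * h z := funext hF
  have hne : ∀ z ∈ bdry a b c d, ∀ w ∈ Z, z ≠ w := by
    intro z hz w hw
    obtain ⟨⟨h1, h2⟩, h3, h4⟩ := hZ w hw
    exact not_mem_bdry h1 h2 h3 h4 hz
  have hlog : ∀ z ∈ bdry a b c d, logDeriv F z * k z =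
      (∑ w ∈ Z, (m w : ℂ) * (k z / (z - w))) + logDeriv h z * k z := by
    intro z hz
    have hPne : (∏ w ∈ Z, (z - w) ^ m w) ≠ 0 :=
      Finset.prod_ne_zero_iff.2 fun w hw => pow_ne_zero _ (sub_ne_zero.2 (hne z hz w hw))
    have hPd : DifferentiableAt ℂ (fun z : ℂ => ∏ w ∈ Z, (z - w) ^ m w) z :=
      (by fun_prop : Differentiable ℂ fun z : ℂ => ∏ w ∈ Z, (z - w) ^ m w) z
    rw [hFeq, logDeriv_mul z hPne (h0 z hz.2.1.1 hz.2.1.2 hz.2.2.1 hz.2.2.2) hPd (hh z)]
    have e1 : logDeriv (fun z : ℂ => ∏ w ∈ Z, (z - w) ^ m w) z = ∑ w ∈ Z, (m w : ℂ) / (z - w) := by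
      rw [logDeriv_prod (f := fun (w z : ℂ) => (z - w) ^ m w)
        (fun w hw => pow_ne_zero _ (sub_ne_zero.2 (hne z hz w hw)))
        (fun w hw => by fun_prop)]
      apply Finset.sum_congr rfl
      intro w _
      have : logDeriv (fun z : ℂ => (z - w) ^ m w) z = m w * logDeriv (fun z : ℂ => z - w) z :=
        logDeriv_fun_pow (by fun_prop) _
      rw [this, logDeriv_apply, deriv_sub_const, deriv_id'']
      ring
    rw [e1, add_mul, Finset.sum_mul]
    congr 1
    apply Finset.sum_congr rfl
    intro w _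
    ring
  have hcont1 : ∀ w ∈ Z, ContinuousOn (fun z => (m w : ℂ) * (k z / (z - w))) (bdry a b c d) := by
    intro w hw
    apply ContinuousOn.mul continuousOn_const
    apply ContinuousOn.div hk.continuous.continuousOn (by fun_prop)
    intro z hz
    exact sub_ne_zero.2 (hne z hz w hw)
  have hdiff : DifferentiableOn ℂ (fun z => logDeriv h z * k z) (Icc a b ×ℂ Icc c d) := by
    intro z hz
    have hz0 : h z ≠ 0 := h0 z hz.1.1 hz.1.2 hz.2.1 hz.2.2
    have h1 : Differentiable ℂ (deriv h) := by
      rw [← differentiableOn_univ]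
      exact hh.differentiableOn.deriv isOpen_univ
    have h2 : DifferentiableAt ℂ (fun z => logDeriv h z * k z) z := by
      simp only [logDeriv_apply]
      exact ((h1 z).div (hh z) hz0).mul (hk z)
    exact h2.differentiableWithinAt
  rw [rectI_congr hab hcd hlog, rectI_add hab hcd (continuousOn_finsetSum _ hcont1)
    (hdiff.continuousOn.mono (fun z hz => ⟨⟨hz.2.1.1, hz.2.1.2⟩, hz.2.2.1, hz.2.2.2⟩)),
    rectI_sum hab hcd Z hcont1, rectI_zero hab hcd hdiff, add_zero, Finset.mul_sum]
  apply Finset.sum_congr rfl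
  intro w hw
  obtain ⟨⟨h1, h2⟩, h3, h4⟩ := hZ w hw
  rw [rectI_const_mul, rectI_cauchy hk h1 h2 h3 h4]
  ring

end Pool.Agent.Lib.MP_6bc78b_nt.LL
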