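import Mathlib

set_option autoImplicit false

open Set Filter Topology MeasureTheory

namespace Pool.Agent.Lib.MP_6bc78b_nt.LL

/-- Dirichlet kernel. -/
noncomputable def dirK : ℕ → ℝ → ℝ
  | 0, _ => 1
  | n + 1, x => dirK n x + 2 * Real.cos (2 * (n + 1) * x)

/-- Fejér kernel. -/
noncomputable def fejQ : ℕ → ℝ → ℝ
  | 0, _ => 0
  | n + 1, x => fejQ n x + dirK n x

lemma continuous_dirK (n : ℕ) : Continuous (dirK n) := by
  induction n with
  | zero => exact continuous_const
  | succ n ih =>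
    have : dirK (n + 1) = fun x => dirK n x + 2 * Real.cos (2 * (n + 1) * x) := rfl
    rw [this]; fun_prop

lemma continuous_fejQ (n : ℕ) : Continuous (fejQ n) := by
  induction n with
  | zero => exact continuous_const
  | succ n ih =>
    have : fejQ (n + 1) = fun x => fejQ n x + dirK n x := rfl
    rw [this]; exact ih.add (continuous_dirK n)

lemma sin_mul_dirK (n : ℕ) (x : ℝ) : Real.sin x * dirK n x = Real.sin ((2 * n + 1) * x) := by
  induction n with
  | zero => simp [dirK]
  | succ n ih =>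
    rw [dirK, mul_add, ih]
    push_cast
    have h1 : (2 * ((n:ℝ) + 1) + 1) * x = 2 * (n + 1) * x + x := by ring
    have h2 : (2 * (n:ℝ) + 1) * x = 2 * (n + 1) * x - x := by ring
    rw [h1, h2, Real.sin_add, Real.sin_sub]
    ring

lemma sin_sq_mul_fejQ (n : ℕ) (x : ℝ) : Real.sin x ^ 2 * fejQ n x = Real.sin (n * x) ^ 2 := by
  induction n with
  | zero => simp [fejQ]
  | succ n ih =>
    have h0 := sin_mul_dirK n x
    have : Real.sin x ^ 2 * fejQ (n + 1) x = Real.sin x ^ 2 * fejQ n x +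
        Real.sin x * (Real.sin x * dirK n x) := by rw [fejQ]; ring
    rw [this, ih, h0]
    push_cast
    have h1 : (2 * (n:ℝ) + 1) * x = n * x + (n * x + x) := by ring
    have h2 : ((n:ℝ) + 1) * x = n * x + x := by ring
    rw [h1, h2, Real.sin_add (n * x) (n * x + x), Real.sin_add (n * x) x, Real.cos_add (n * x) x]
    have h3 := Real.sin_sq_add_cos_sq x
    have h4 := Real.sin_sq_add_cos_sq (n * x)
    nlinarith [h3, h4]

lemma dirK_zero (n : ℕ) : dirK n 0 = 2 * n + 1 := by
  induction n with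
  | zero => simp [dirK]
  | succ n ih => rw [dirK, ih]; simp; ring

lemma fejQ_zero (n : ℕ) : fejQ n 0 = (n:ℝ) ^ 2 := by
  induction n with
  | zero => simp [fejQ]
  | succ n ih => rw [fejQ, ih, dirK_zero]; push_cast; ring

lemma integral_dirK (n : ℕ) : ∫ x in (-(Real.pi / 2))..(Real.pi / 2), dirK n x = Real.pi := by
  induction n with
  | zero => simp only [dirK]; rw [intervalIntegral.integral_const]; simp
  | succ n ih =>
    simp only [dirK]
    rw [intervalIntegral.integral_add ((continuous_dirK n).intervalIntegrable _ _)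
      (by apply Continuous.intervalIntegrable; fun_prop), ih,
      intervalIntegral.integral_const_mul]
    have h1 : (2 * ((n:ℝ) + 1)) ≠ 0 := by positivity
    have h2 : ∫ x in (-(Real.pi / 2))..(Real.pi / 2), Real.cos (2 * ((n:ℝ) + 1) * x) = 0 := by
      rw [intervalIntegral.integral_comp_mul_left (fun x => Real.cos x) h1, integral_cos]
      have e1 : 2 * ((n:ℝ) + 1) * (Real.pi / 2) = ((n + 1 : ℕ) : ℝ) * Real.pi := by
        push_cast; ring
      have e2 : 2 * ((n:ℝ) + 1) * -(Real.pi / 2) = -(((n + 1 : ℕ) : ℝ) * Real.pi) := by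
        push_cast; ring
      rw [e1, e2, Real.sin_neg, Real.sin_nat_mul_pi]
      simp
    rw [h2]; simp

lemma integral_fejQ (n : ℕ) : ∫ x in (-(Real.pi / 2))..(Real.pi / 2), fejQ n x = n * Real.pi := by
  induction n with
  | zero => simp [fejQ]
  | succ n ih =>
    simp only [fejQ]
    rw [intervalIntegral.integral_add ((continuous_fejQ n).intervalIntegrable _ _)
      ((continuous_dirK n).intervalIntegrable _ _), ih, integral_dirK]
    push_cast; ring

lemma sinc_sq_le_fejQ (n : ℕ) {x : ℝ} (hx : x ∈ Icc (-(Real.pi / 2)) (Real.pi / 2)) :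
    (n:ℝ) ^ 2 * Real.sinc (n * x) ^ 2 ≤ fejQ n x := by
  rcases eq_or_ne x 0 with rfl | hx0
  · rw [fejQ_zero]; simp
  · rcases Nat.eq_zero_or_pos n with rfl | hn
    · simp [fejQ]
    · have hn' : (0:ℝ) < n := by exact_mod_cast hn
      have hnx : (n:ℝ) * x ≠ 0 := mul_ne_zero hn'.ne' hx0
      have hsin : Real.sin x ≠ 0 := by
        rcases lt_or_gt_of_ne hx0 with h | h
        · exact (Real.sin_neg_of_neg_of_neg_pi_lt h (by linarith [hx.1, Real.pi_pos])).ne
        · exact (Real.sin_pos_of_pos_of_lt_pi h (by linarith [hx.2, Real.pi_pos])).ne'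
      have hQ := sin_sq_mul_fejQ n x
      have hsin2 : 0 < Real.sin x ^ 2 := by positivity
      have hQ0 : 0 ≤ fejQ n x := by
        by_contra hcon
        push Not at hcon
        have := mul_neg_of_pos_of_neg hsin2 hcon
        rw [hQ] at this
        linarith [sq_nonneg (Real.sin (n * x))]
      rw [Real.sinc_of_ne_zero hnx, div_pow, mul_pow, ← hQ]
      have hx2 : 0 < x ^ 2 := by positivity
      have h1 : Real.sin x ^ 2 ≤ x ^ 2 := by
        rw [← sq_abs, ← sq_abs x]
        exact pow_le_pow_left₀ (abs_nonneg _) Real.abs_sin_le_abs 2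
      have h2 : (n:ℝ) ^ 2 * (Real.sin x ^ 2 * fejQ n x / ((n:ℝ) ^ 2 * x ^ 2)) =
          Real.sin x ^ 2 / x ^ 2 * fejQ n x := by field_simp
      rw [h2]
      have h3 : Real.sin x ^ 2 / x ^ 2 ≤ 1 := by rw [div_le_one hx2]; exact h1
      exact mul_le_of_le_one_left hQ0 h3

/-- `∫ (sin v / v)² ≤ π` over every interval. -/
theorem integral_sinc_sq_le {c d : ℝ} (hcd : c ≤ d) :
    ∫ v in c..d, Real.sinc v ^ 2 ≤ Real.pi := by
  have hπ := Real.pi_pos
  obtain ⟨n, hn⟩ := exists_nat_gt (max (|c|) (|d|) + 1)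
  have hn1 : (1:ℝ) < n := by
    have : 0 ≤ max |c| |d| := (abs_nonneg c).trans (le_max_left _ _)
    linarith
  have hn0 : (0:ℝ) < n := by linarith
  have hcn : -((n:ℝ) * (Real.pi / 2)) ≤ c := by
    have h1 : |c| ≤ n := by linarith [le_max_left |c| |d|]
    have h2 : (n:ℝ) * 1 ≤ n * (Real.pi / 2) := by
      gcongr; linarith [Real.pi_gt_three]
    linarith [neg_abs_le c]
  have hdn : d ≤ (n:ℝ) * (Real.pi / 2) := by
    have h1 : |d| ≤ n := by linarith [le_max_right |c| |d|]
    have h2 : (n:ℝ) * 1 ≤ n * (Real.pi / 2) := by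
      gcongr; linarith [Real.pi_gt_three]
    linarith [le_abs_self d]
  have hcont : Continuous fun v : ℝ => Real.sinc v ^ 2 := Real.continuous_sinc.pow 2
  have h1 : ∫ v in c..d, Real.sinc v ^ 2 ≤
      ∫ v in (-((n:ℝ) * (Real.pi / 2)))..((n:ℝ) * (Real.pi / 2)), Real.sinc v ^ 2 := by
    apply intervalIntegral.integral_mono_interval hcn hcd hdn
    · exact Eventually.of_forall fun v => sq_nonneg _
    · exact hcont.intervalIntegrable _ _
  refine h1.trans ?_
  have h2 : ∫ x in (-(Real.pi / 2))..(Real.pi / 2), Real.sinc (n * x) ^ 2 =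
      (n:ℝ)⁻¹ * ∫ v in (-((n:ℝ) * (Real.pi / 2)))..((n:ℝ) * (Real.pi / 2)), Real.sinc v ^ 2 := by
    have := intervalIntegral.integral_comp_mul_left (a := -(Real.pi / 2)) (b := Real.pi / 2)
      (fun v => Real.sinc v ^ 2) hn0.ne'
    rw [this, smul_eq_mul, mul_neg]
  have h3 : ∫ x in (-(Real.pi / 2))..(Real.pi / 2), (n:ℝ) ^ 2 * Real.sinc (n * x) ^ 2 ≤
      n * Real.pi := by
    rw [← integral_fejQ n]
    apply intervalIntegral.integral_mono_on (by linarith)
    · apply Continuous.intervalIntegrable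
      exact continuous_const.mul ((Real.continuous_sinc.comp (by fun_prop)).pow 2)
    · exact (continuous_fejQ n).intervalIntegrable _ _
    · intro x hx
      exact sinc_sq_le_fejQ n hx
  rw [intervalIntegral.integral_const_mul, h2] at h3
  have h4 : (n:ℝ) ^ 2 * ((n:ℝ)⁻¹ * ∫ v in (-((n:ℝ) * (Real.pi / 2)))..((n:ℝ) * (Real.pi / 2)),
      Real.sinc v ^ 2) = n * ∫ v in (-((n:ℝ) * (Real.pi / 2)))..((n:ℝ) * (Real.pi / 2)),
      Real.sinc v ^ 2 := by field_simp
  rw [h4] at h3
  exact le_of_mul_le_mul_left h3 hn0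

end Pool.Agent.Lib.MP_6bc78b_nt.LL
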