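import Mathlib
import Pool.Agent.Lib.MP_6bc78b_nt.LL.Sinc

set_option autoImplicit false

open Complex Set Filter Topology MeasureTheory

namespace Pool.Agent.Lib.MP_6bc78b_nt.LL

/-- `sinh z / z`. -/
noncomputable def Sh (z : ℂ) : ℂ := dslope Complex.sinh 0 z

lemma differentiable_Sh : Differentiable ℂ Sh := by
  rw [← differentiableOn_univ]
  exact (Complex.differentiableOn_dslope univ_mem).2 Complex.differentiable_sinh.differentiableOn

lemma mul_Sh (z : ℂ) : z * Sh z = Complex.sinh z := by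
  have := sub_smul_dslope Complex.sinh 0 z
  simpa [Sh] using this

lemma Sh_zero : Sh 0 = 1 := by
  rw [Sh, dslope_same, Complex.deriv_sinh, Complex.cosh_zero]

lemma Sh_eq {z : ℂ} (hz : z ≠ 0) : Sh z = Complex.sinh z / z := by
  rw [← mul_Sh]; field_simp

lemma Sh_neg (z : ℂ) : Sh (-z) = Sh z := by
  rcases eq_or_ne z 0 with rfl | hz
  · simp
  · rw [Sh_eq hz, Sh_eq (neg_ne_zero.2 hz), Complex.sinh_neg, neg_div_neg_eq]

lemma Sh_conj (z : ℂ) : Sh ((starRingEnd ℂ) z) = (starRingEnd ℂ) (Sh z) := by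
  rcases eq_or_ne z 0 with rfl | hz
  · simp [Sh_zero]
  · rw [Sh_eq hz, Sh_eq ((map_ne_zero _).2 hz), Complex.sinh_conj, map_div₀]

lemma norm_cosh_le (z : ℂ) : ‖Complex.cosh z‖ ≤ Real.cosh z.re := by
  rw [Complex.cosh, norm_div, Real.cosh_eq]
  have h := norm_add_le (Complex.exp z) (Complex.exp (-z))
  rw [Complex.norm_exp, Complex.norm_exp, neg_re] at h
  have : ‖(2:ℂ)‖ = 2 := by norm_num
  rw [this]
  gcongr

lemma norm_Sh_le (z : ℂ) : ‖Sh z‖ ≤ Real.cosh z.re := by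
  rcases eq_or_ne z 0 with rfl | hz
  · simp [Sh_zero]
  · have hconv : Convex ℝ {w : ℂ | |w.re| ≤ |z.re|} := by
      have : {w : ℂ | |w.re| ≤ |z.re|} = Complex.reLm ⁻¹' (Icc (-|z.re|) |z.re|) := by
        ext w; simp [abs_le]
      rw [this]
      exact (convex_Icc _ _).linear_preimage _
    have h1 := hconv.norm_image_sub_le_of_norm_deriv_le (𝕜 := ℂ) (f := Complex.sinh)
      (C := Real.cosh z.re) (x := 0) (y := z)
      (fun w _ => Complex.differentiable_sinh w)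
      (fun w hw => by
        rw [Complex.deriv_sinh]
        refine (norm_cosh_le w).trans ?_
        rw [Real.cosh_le_cosh]; exact hw) (by simp) (by simp)
    rw [Complex.sinh_zero, sub_zero, sub_zero, ← mul_Sh, norm_mul, mul_comm] at h1
    exact le_of_mul_le_mul_right h1 (norm_pos_iff.2 hz)

lemma cosh_le_exp_abs (x : ℝ) : Real.cosh x ≤ Real.exp |x| := by
  rw [← Real.cosh_abs, Real.cosh_eq]
  have h1 : Real.exp (-|x|) ≤ Real.exp |x| := Real.exp_le_exp.2 (by linarith [abs_nonneg x])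
  linarith

/-- `sinh β / β` as a real number. -/
lemma Sh_ofReal {β : ℝ} (hβ : 0 < β) : Sh (β : ℂ) = ((Real.sinh β / β : ℝ) : ℂ) := by
  rw [Sh_eq (by exact_mod_cast hβ.ne')]
  push_cast
  rfl

lemma one_le_sinh_div {β : ℝ} (hβ : 0 < β) : 1 ≤ Real.sinh β / β := by
  rw [le_div_iff₀ hβ, one_mul]
  exact Real.self_le_sinh_iff.2 hβ.le

/-- The product formula. -/
lemma Sh_mul_Sh (β : ℝ) (w : ℂ) (h : (β : ℂ) ^ 2 - w ^ 2 ≠ 0) :
    Sh (β + w) * Sh (β - w) =
      (Complex.cosh (2 * β) - Complex.cosh (2 * w)) / (2 * ((β : ℂ) ^ 2 - w ^ 2)) := by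
  have h1 : (β : ℂ) + w ≠ 0 := by
    intro h0; apply h
    have : (β : ℂ) ^ 2 - w ^ 2 = (β + w) * (β - w) := by ring
    rw [this, h0, zero_mul]
  have h2 : (β : ℂ) - w ≠ 0 := by
    intro h0; apply h
    have : (β : ℂ) ^ 2 - w ^ 2 = (β + w) * (β - w) := by ring
    rw [this, h0, mul_zero]
  rw [Sh_eq h1, Sh_eq h2, eq_div_iff (by simpa using h)]
  have e1 : Complex.cosh (2 * β) = Complex.cosh ((β + w) + (β - w)) := by congr 1; ring
  have e2 : Complex.cosh (2 * w) = Complex.cosh ((β + w) - (β - w)) := by congr 1; ring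
  have e3 : (β : ℂ) ^ 2 - w ^ 2 = (β + w) * (β - w) := by ring
  rw [e1, e2, e3]
  obtain ⟨p, hp⟩ : ∃ p : ℂ, p = (β : ℂ) + w := ⟨_, rfl⟩
  obtain ⟨q, hq⟩ : ∃ q : ℂ, q = (β : ℂ) - w := ⟨_, rfl⟩
  rw [← hp] at h1
  rw [← hq] at h2
  rw [← hp, ← hq, Complex.cosh_add, Complex.cosh_sub]
  field_simp
  ring

/-- The kernel. -/
noncomputable def ker (β a N : ℝ) (z : ℂ) : ℂ :=
  Sh (β + a * z) * Sh (β - a * z) / Sh β ^ 2 * Complex.exp (N * z ^ 2)

lemma differentiable_ker (β a N : ℝ) : Differentiable ℂ (ker β a N) := by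
  have h1 : Differentiable ℂ fun z : ℂ => Sh (β + a * z) := differentiable_Sh.comp (by fun_prop)
  have h2 : Differentiable ℂ fun z : ℂ => Sh (β - a * z) := differentiable_Sh.comp (by fun_prop)
  exact ((h1.mul h2).div_const _).mul (by fun_prop)

lemma ker_neg (β a N : ℝ) (z : ℂ) : ker β a N (-z) = ker β a N z := by
  simp only [ker]
  have e1 : (β : ℂ) + a * -z = β - a * z := by ring
  have e2 : (β : ℂ) - a * -z = β + a * z := by ring
  rw [e1, e2, neg_sq]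
  ring

lemma ker_conj (β a N : ℝ) (z : ℂ) :
    ker β a N ((starRingEnd ℂ) z) = (starRingEnd ℂ) (ker β a N z) := by
  simp only [ker]
  have e1 : (β : ℂ) + a * (starRingEnd ℂ) z = (starRingEnd ℂ) (β + a * z) := by simp
  have e2 : (β : ℂ) - a * (starRingEnd ℂ) z = (starRingEnd ℂ) (β - a * z) := by simp
  have e3 : Sh (β : ℂ) = (starRingEnd ℂ) (Sh β) := by rw [← Sh_conj]; simp
  rw [e1, e2, Sh_conj, Sh_conj, map_mul, map_div₀, map_mul, map_pow, ← e3, ← Complex.exp_conj]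
  simp

lemma norm_exp_N (N : ℝ) (z : ℂ) :
    ‖Complex.exp (N * z ^ 2)‖ = Real.exp (N * (z.re ^ 2 - z.im ^ 2)) := by
  rw [Complex.norm_exp]
  congr 1
  rw [re_ofReal_mul, sq, mul_re]
  ring

lemma norm_ker_le {β a N : ℝ} (hβ : 0 < β) (ha : 0 < a) (z : ℂ) :
    ‖ker β a N z‖ ≤ Real.exp (2 * β + 2 * a * |z.re| + N * (z.re ^ 2 - z.im ^ 2)) := by
  have h1 : ‖Sh (β + a * z)‖ ≤ Real.exp (β + a * |z.re|) := by
    refine (norm_Sh_le _).trans ((cosh_le_exp_abs _).trans (Real.exp_le_exp.2 ?_))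
    have : (β + a * z : ℂ).re = β + a * z.re := by simp
    rw [this]
    refine (abs_add_le _ _).trans ?_
    rw [abs_of_pos hβ, abs_mul, abs_of_pos ha]
  have h2 : ‖Sh (β - a * z)‖ ≤ Real.exp (β + a * |z.re|) := by
    refine (norm_Sh_le _).trans ((cosh_le_exp_abs _).trans (Real.exp_le_exp.2 ?_))
    have : (β - a * z : ℂ).re = β - a * z.re := by simp
    rw [this]
    refine (abs_sub _ _).trans ?_
    rw [abs_of_pos hβ, abs_mul, abs_of_pos ha]
  have h3 : 1 ≤ ‖Sh (β : ℂ) ^ 2‖ := by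
    rw [Sh_ofReal hβ, ← ofReal_pow, Complex.norm_real, Real.norm_of_nonneg (by positivity)]
    exact one_le_pow₀ (one_le_sinh_div hβ)
  rw [ker, norm_mul, norm_div, norm_mul, norm_exp_N]
  have h4 : Real.exp (2 * β + 2 * a * |z.re| + N * (z.re ^ 2 - z.im ^ 2)) =
      (Real.exp (β + a * |z.re|) * Real.exp (β + a * |z.re|)) *
        Real.exp (N * (z.re ^ 2 - z.im ^ 2)) := by
    rw [← Real.exp_add, ← Real.exp_add]; congr 1; ring
  rw [h4]
  apply mul_le_mul_of_nonneg_right _ (Real.exp_pos _).le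
  refine (div_le_self (by positivity) h3).trans ?_
  gcongr

/-- The kernel on the imaginary axis. -/
noncomputable def kerF (β a N y : ℝ) : ℝ :=
  (Real.cosh (2 * β) - Real.cos (2 * (a * y))) / (Real.cosh (2 * β) - 1) *
    (β ^ 2 / (β ^ 2 + (a * y) ^ 2)) * Real.exp (-(N * y ^ 2))

lemma sinh_sq_eq (β : ℝ) : Real.sinh β ^ 2 = (Real.cosh (2 * β) - 1) / 2 := by
  rw [Real.cosh_two_mul, Real.cosh_sq]; ring

lemma two_sq_le {β : ℝ} (hβ : 0 < β) : 2 * β ^ 2 ≤ Real.cosh (2 * β) - 1 := by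
  have h1 := sinh_sq_eq β
  have h2 : β ^ 2 ≤ Real.sinh β ^ 2 := by
    have := Real.self_le_sinh_iff.2 hβ.le
    gcongr
  linarith

lemma ker_I {β : ℝ} (hβ : 0 < β) (a N y : ℝ) : ker β a N (y * I) = (kerF β a N y : ℂ) := by
  have h1 : ((β : ℂ) ^ 2 - (a * (y * I)) ^ 2) = ((β ^ 2 + (a * y) ^ 2 : ℝ) : ℂ) := by
    push_cast; ring_nf; rw [I_sq]; ring
  have hpos : 0 < β ^ 2 + (a * y) ^ 2 := by positivity
  have h2 : ((β : ℂ) ^ 2 - (a * (y * I)) ^ 2) ≠ 0 := by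
    rw [h1]; exact_mod_cast hpos.ne'
  rw [ker, Sh_mul_Sh β _ h2, h1, Sh_ofReal hβ, kerF]
  have h3 : Complex.cosh (2 * (a * (y * I))) = ((Real.cos (2 * (a * y)) : ℝ) : ℂ) := by
    have : (2 * (a * (y * I)) : ℂ) = ((2 * (a * y) : ℝ) : ℂ) * I := by push_cast; ring
    rw [this, Complex.cosh_mul_I]; push_cast; rfl
  have h4 : Complex.cosh (2 * β) = ((Real.cosh (2 * β) : ℝ) : ℂ) := by push_cast; rfl
  have h5 : Complex.exp (N * (y * I) ^ 2) = ((Real.exp (-(N * y ^ 2)) : ℝ) : ℂ) := by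
    push_cast
    congr 1
    rw [mul_pow, I_sq]; ring
  rw [h3, h4, h5, ← ofReal_sub, ← ofReal_pow]
  have h6 : (2:ℂ) = ((2:ℝ):ℂ) := by norm_num
  rw [h6, ← ofReal_mul, ← ofReal_div, ← ofReal_div, ← ofReal_mul]
  congr 1
  congr 1
  rw [div_pow, sinh_sq_eq]
  have h7 : 0 < Real.cosh (2 * β) - 1 := by
    have := two_sq_le hβ
    have : 0 < β ^ 2 := by positivity
    linarith
  field_simp

lemma kerF_nonneg {β : ℝ} (hβ : 0 < β) (a N y : ℝ) : 0 ≤ kerF β a N y := by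
  have h1 : 0 < Real.cosh (2 * β) - 1 := by
    have := two_sq_le hβ
    have : 0 < β ^ 2 := by positivity
    linarith
  have h2 := Real.cos_le_one (2 * (a * y))
  have h3 : 0 ≤ Real.cosh (2 * β) - Real.cos (2 * (a * y)) := by linarith
  rw [kerF]
  positivity

lemma kerF_eq {β : ℝ} (hβ : 0 < β) (a N y : ℝ) : kerF β a N y =
    (1 + 2 * Real.sin (a * y) ^ 2 / (Real.cosh (2 * β) - 1)) *
    (β ^ 2 / (β ^ 2 + (a * y) ^ 2)) * Real.exp (-(N * y ^ 2)) := by
  have h7 : 0 < Real.cosh (2 * β) - 1 := by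
    have := two_sq_le hβ
    have : 0 < β ^ 2 := by positivity
    linarith
  rw [kerF]
  congr 2
  have : Real.cos (2 * (a * y)) = 1 - 2 * Real.sin (a * y) ^ 2 := by
    rw [Real.cos_two_mul, Real.cos_sq']; ring
  rw [this]
  field_simp
  ring

lemma kerF_le {β N : ℝ} (hβ : 0 < β) (hN : 0 ≤ N) (a y : ℝ) :
    kerF β a N y ≤ β ^ 2 / (β ^ 2 + (a * y) ^ 2) + Real.sinc (a * y) ^ 2 := by
  rw [kerF_eq hβ]
  obtain ⟨v, hv⟩ : ∃ v : ℝ, v = a * y := ⟨_, rfl⟩
  rw [← hv]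
  have h1 := two_sq_le hβ
  have hβ2 : 0 < β ^ 2 := by positivity
  have h2 : 0 < Real.cosh (2 * β) - 1 := by linarith
  have h3 : Real.exp (-(N * y ^ 2)) ≤ 1 := by
    rw [Real.exp_le_one_iff]
    have : 0 ≤ N * y ^ 2 := by positivity
    linarith
  have hpos : 0 < β ^ 2 + v ^ 2 := by positivity
  have h4 : 0 ≤ (1 + 2 * Real.sin v ^ 2 / (Real.cosh (2 * β) - 1)) * (β ^ 2 / (β ^ 2 + v ^ 2)) := by
    positivity
  refine (mul_le_of_le_one_right h4 h3).trans ?_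
  have h5 : (1 + 2 * Real.sin v ^ 2 / (Real.cosh (2 * β) - 1)) * (β ^ 2 / (β ^ 2 + v ^ 2)) =
      β ^ 2 / (β ^ 2 + v ^ 2) +
        (2 * β ^ 2 / (Real.cosh (2 * β) - 1)) * (Real.sin v ^ 2 / (β ^ 2 + v ^ 2)) := by
    field_simp
  rw [h5]
  gcongr
  have h6 : 2 * β ^ 2 / (Real.cosh (2 * β) - 1) ≤ 1 := by rw [div_le_one h2]; exact h1
  have h7 : 0 ≤ Real.sin v ^ 2 / (β ^ 2 + v ^ 2) := by positivity
  refine (mul_le_of_le_one_left h7 h6).trans ?_
  rcases eq_or_ne v 0 with h0 | h0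
  · rw [h0]; simp
  · rw [Real.sinc_of_ne_zero h0, div_pow]
    gcongr
    linarith

lemma sinh_le_mul_cosh {β : ℝ} (hβ : 0 ≤ β) : Real.sinh β ≤ β * Real.cosh β := by
  rcases hβ.eq_or_lt with rfl | hβ
  · simp
  have h3 := norm_Sh_le (β : ℂ)
  rw [Sh_ofReal hβ, Complex.norm_real, ofReal_re, Real.norm_of_nonneg
    (by linarith [one_le_sinh_div hβ]), div_le_iff₀ hβ] at h3
  linarith

lemma cosh_sub_one_le {x : ℝ} (hx : 0 ≤ x) : Real.cosh x - 1 ≤ x / 2 * Real.sinh x := by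
  have h1 : 0 ≤ x / 2 := by linarith
  have h2 := sinh_le_mul_cosh h1
  have h3 : 0 ≤ Real.sinh (x / 2) := Real.sinh_nonneg_iff.2 h1
  have e1 : Real.cosh x - 1 = 2 * Real.sinh (x / 2) * Real.sinh (x / 2) := by
    have h4 := Real.cosh_two_mul (x / 2)
    rw [show 2 * (x / 2) = x by ring, Real.cosh_sq] at h4
    rw [h4]; ring
  have e2 : Real.sinh x = 2 * Real.sinh (x / 2) * Real.cosh (x / 2) := by
    rw [← Real.sinh_two_mul]; congr 1; ring
  rw [e1, e2]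
  have h5 := mul_le_mul_of_nonneg_left h2 (by positivity : 0 ≤ 2 * Real.sinh (x / 2))
  calc 2 * Real.sinh (x / 2) * Real.sinh (x / 2) ≤
      2 * Real.sinh (x / 2) * (x / 2 * Real.cosh (x / 2)) := h5
    _ = x / 2 * (2 * Real.sinh (x / 2) * Real.cosh (x / 2)) := by ring

lemma cosh_sub_one_mul_le {x : ℝ} (hx : 0 ≤ x) :
    (Real.cosh x - 1) * (1 - x ^ 2 / 12) ≤ x ^ 2 / 2 := by
  have hd0 : ∀ x : ℝ, HasDerivAt (fun x : ℝ => x ^ 2 / 2 - (Real.cosh x - 1) * (1 - x ^ 2 / 12))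
      (x - Real.sinh x * (1 - x ^ 2 / 12) + (Real.cosh x - 1) * (x / 6)) x := by
    intro x
    have h1 : HasDerivAt (fun x : ℝ => x ^ 2 / 2) (2 * x / 2) x := by
      simpa using (hasDerivAt_pow 2 x).div_const 2
    have h2 : HasDerivAt (fun x : ℝ => Real.cosh x - 1) (Real.sinh x) x :=
      (Real.hasDerivAt_cosh x).sub_const 1
    have h3 : HasDerivAt (fun x : ℝ => 1 - x ^ 2 / 12) (-(2 * x / 12)) x := by
      simpa using ((hasDerivAt_pow 2 x).div_const 12).const_sub 1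
    refine (h1.sub (h2.mul h3)).congr_deriv ?_
    ring
  have hd1 : ∀ x : ℝ, HasDerivAt
      (fun x : ℝ => x - Real.sinh x * (1 - x ^ 2 / 12) + (Real.cosh x - 1) * (x / 6))
      (x ^ 2 / 12 * Real.cosh x + x / 3 * Real.sinh x - 5 / 6 * (Real.cosh x - 1)) x := by
    intro x
    have h2 : HasDerivAt (fun x : ℝ => Real.cosh x - 1) (Real.sinh x) x :=
      (Real.hasDerivAt_cosh x).sub_const 1
    have h3 : HasDerivAt (fun x : ℝ => 1 - x ^ 2 / 12) (-(2 * x / 12)) x := by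
      simpa using ((hasDerivAt_pow 2 x).div_const 12).const_sub 1
    have h4 : HasDerivAt (fun x : ℝ => x / 6) (1 / 6) x := (hasDerivAt_id x).div_const 6
    refine (((hasDerivAt_id x).sub ((Real.hasDerivAt_sinh x).mul h3)).add (h2.mul h4)).congr_deriv ?_
    ring
  have hnn : ∀ x : ℝ, 0 ≤ x →
      0 ≤ x ^ 2 / 12 * Real.cosh x + x / 3 * Real.sinh x - 5 / 6 * (Real.cosh x - 1) := by
    intro x hx
    have h1 := cosh_sub_one_le hx
    have h2 := mul_le_mul_of_nonneg_left (sinh_le_mul_cosh hx) (by linarith : 0 ≤ x / 2)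
    have h3 : x / 2 * (x * Real.cosh x) = x ^ 2 / 2 * Real.cosh x := by ring
    rw [h3] at h2
    have h4 : x ^ 2 / 12 * Real.cosh x = (x ^ 2 / 2 * Real.cosh x) / 6 := by ring
    have h5 : x / 3 * Real.sinh x = (x / 2 * Real.sinh x) * (2 / 3) := by ring
    rw [h4, h5]
    linarith
  have hm1 : MonotoneOn
      (fun x : ℝ => x - Real.sinh x * (1 - x ^ 2 / 12) + (Real.cosh x - 1) * (x / 6)) (Ici 0) := by
    apply monotoneOn_of_deriv_nonneg (convex_Ici 0)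
    · exact fun x _ => (hd1 x).continuousAt.continuousWithinAt
    · exact fun x _ => (hd1 x).differentiableAt.differentiableWithinAt
    · intro x hx
      rw [interior_Ici] at hx
      rw [(hd1 x).deriv]
      exact hnn x (le_of_lt hx)
  have hg1 : ∀ x : ℝ, 0 ≤ x →
      0 ≤ x - Real.sinh x * (1 - x ^ 2 / 12) + (Real.cosh x - 1) * (x / 6) := by
    intro x hx
    have := hm1 (mem_Ici.2 le_rfl) (mem_Ici.2 hx) hx
    simpa using this
  have hm0 : MonotoneOn (fun x : ℝ => x ^ 2 / 2 - (Real.cosh x - 1) * (1 - x ^ 2 / 12)) (Ici 0) := by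
    apply monotoneOn_of_deriv_nonneg (convex_Ici 0)
    · exact fun x _ => (hd0 x).continuousAt.continuousWithinAt
    · exact fun x _ => (hd0 x).differentiableAt.differentiableWithinAt
    · intro x hx
      rw [interior_Ici] at hx
      rw [(hd0 x).deriv]
      exact hg1 x (le_of_lt hx)
  have := hm0 (mem_Ici.2 le_rfl) (mem_Ici.2 hx) hx
  simp at this
  linarith

/-- Lower bound for the kernel. -/
lemma le_kerF {β N : ℝ} (hβ : 0 < β) (hN : 0 ≤ N) (a y : ℝ) :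
    1 - (a ^ 2 / 3 + N) * y ^ 2 ≤ kerF β a N y := by
  rcases le_or_gt (1 - (a ^ 2 / 3 + N) * y ^ 2) 0 with h0 | h0
  · exact h0.trans (kerF_nonneg hβ _ _ _)
  rw [kerF_eq hβ]
  obtain ⟨v, hv⟩ : ∃ v : ℝ, v = a * y := ⟨_, rfl⟩
  have hv2 : a ^ 2 * y ^ 2 = v ^ 2 := by rw [hv]; ring
  rw [← hv]
  have hβ2 : 0 < β ^ 2 := by positivity
  have h1 := two_sq_le hβ
  have h2 : 0 < Real.cosh (2 * β) - 1 := by linarith
  have hNy : 0 ≤ N * y ^ 2 := by positivity
  have hvlt : v ^ 2 < 3 := by nlinarith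
  have h3 : 1 - N * y ^ 2 ≤ Real.exp (-(N * y ^ 2)) := by
    linarith [Real.add_one_le_exp (-(N * y ^ 2))]
  have hpos : 0 < β ^ 2 + v ^ 2 := by positivity
  have hkey : 1 - v ^ 2 / 3 ≤ (1 + 2 * Real.sin v ^ 2 / (Real.cosh (2 * β) - 1)) *
      (β ^ 2 / (β ^ 2 + v ^ 2)) := by
    have hs1 : v ^ 2 - v ^ 4 / 3 ≤ Real.sin v ^ 2 := by
      have h4 : |v| - |v| ^ 3 / 6 ≤ |Real.sin v| := by
        have h5 := Real.sin_ge_sub_cube (abs_nonneg v)
        have h6 : Real.sin |v| ≤ |Real.sin v| := by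
          rcases abs_cases v with h | h
          · rw [h.1]; exact le_abs_self _
          · rw [h.1, Real.sin_neg]; exact neg_le_abs _
        linarith
      have h6 : 0 ≤ |v| - |v| ^ 3 / 6 := by
        have h7 : |v| ^ 3 ≤ |v| * 3 := by
          calc |v| ^ 3 = |v| * |v| ^ 2 := by ring
            _ ≤ |v| * 3 := by
              rw [sq_abs]
              exact mul_le_mul_of_nonneg_left hvlt.le (abs_nonneg v)
        linarith [abs_nonneg v]
      have h7 : (|v| - |v| ^ 3 / 6) ^ 2 ≤ Real.sin v ^ 2 := by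
        rw [← sq_abs (Real.sin v)]; gcongr
      have h8 : (|v| - |v| ^ 3 / 6) ^ 2 = v ^ 2 - v ^ 4 / 3 + v ^ 6 / 36 := by
        have e1 : |v| ^ 2 = v ^ 2 := sq_abs v
        have e2 : (|v| - |v| ^ 3 / 6) ^ 2 = |v| ^ 2 - (|v| ^ 2) ^ 2 / 3 + (|v| ^ 2) ^ 3 / 36 := by
          ring
        rw [e2, e1]; ring
      have h9 : 0 ≤ v ^ 6 / 36 := by positivity
      linarith
    have hs2 : (Real.cosh (2 * β) - 1) * (1 - β ^ 2 / 3) ≤ 2 * β ^ 2 := by
      have := cosh_sub_one_mul_le (by linarith : 0 ≤ 2 * β)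
      have e1 : (2 * β) ^ 2 / 12 = β ^ 2 / 3 := by ring
      have e2 : (2 * β) ^ 2 / 2 = 2 * β ^ 2 := by ring
      rwa [e1, e2] at this
    have h4 : (1 + 2 * Real.sin v ^ 2 / (Real.cosh (2 * β) - 1)) * (β ^ 2 / (β ^ 2 + v ^ 2)) =
        (β ^ 2 + (2 * β ^ 2 / (Real.cosh (2 * β) - 1)) * Real.sin v ^ 2) / (β ^ 2 + v ^ 2) := by
      field_simp
    rw [h4, le_div_iff₀ hpos]
    have h5 : 1 - β ^ 2 / 3 ≤ 2 * β ^ 2 / (Real.cosh (2 * β) - 1) := by
      rw [le_div_iff₀ h2]; linarith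
    have h6 : (1 - β ^ 2 / 3) * (v ^ 2 - v ^ 4 / 3) ≤
        (2 * β ^ 2 / (Real.cosh (2 * β) - 1)) * Real.sin v ^ 2 := by
      have h7 : 0 ≤ v ^ 2 - v ^ 4 / 3 := by nlinarith [sq_nonneg v]
      have h8 : 0 ≤ 2 * β ^ 2 / (Real.cosh (2 * β) - 1) := by positivity
      exact mul_le_mul h5 hs1 h7 h8
    have h9 : 0 ≤ β ^ 2 * v ^ 4 / 9 := by positivity
    have h10 : (1 - β ^ 2 / 3) * (v ^ 2 - v ^ 4 / 3) - ((1 - v ^ 2 / 3) * (β ^ 2 + v ^ 2) - β ^ 2) =
      β ^ 2 * v ^ 4 / 9 := by ring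
    linarith
  have h5 : 0 ≤ 1 - v ^ 2 / 3 := by linarith
  have h6 : 0 ≤ 1 - N * y ^ 2 := by nlinarith
  calc 1 - (a ^ 2 / 3 + N) * y ^ 2 ≤ (1 - v ^ 2 / 3) * (1 - N * y ^ 2) := by
        have h7 : 0 ≤ v ^ 2 / 3 * (N * y ^ 2) := by positivity
        have h8 : (a ^ 2 / 3 + N) * y ^ 2 = v ^ 2 / 3 + N * y ^ 2 := by rw [← hv2]; ring
        rw [h8]
        linarith
    _ ≤ _ := mul_le_mul hkey h3 h6 (h5.trans hkey)

lemma integral_kerF_le {β a N : ℝ} (hβ : 0 < β) (ha : 0 < a) (hN : 0 ≤ N) {c d : ℝ} (hcd : c ≤ d) :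
    ∫ y in c..d, kerF β a N y ≤ (1 + β) * Real.pi / a := by
  have hcont1 : Continuous fun y : ℝ => β ^ 2 / (β ^ 2 + (a * y) ^ 2) := by
    apply Continuous.div (by fun_prop) (by fun_prop)
    intro y; positivity
  have hcont2 : Continuous fun y : ℝ => Real.sinc (a * y) ^ 2 :=
    (Real.continuous_sinc.comp (by fun_prop)).pow 2
  have hcontF : Continuous fun y : ℝ => kerF β a N y := by
    have : (fun y : ℝ => kerF β a N y) = fun y : ℝ => (ker β a N (y * I)).re := by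
      funext y; rw [ker_I hβ, ofReal_re]
    rw [this]
    exact Complex.continuous_re.comp ((differentiable_ker β a N).continuous.comp (by fun_prop))
  have h1 : ∫ y in c..d, kerF β a N y ≤
      ∫ y in c..d, (β ^ 2 / (β ^ 2 + (a * y) ^ 2) + Real.sinc (a * y) ^ 2) := by
    apply intervalIntegral.integral_mono_on hcd (hcontF.intervalIntegrable _ _)
      ((hcont1.add hcont2).intervalIntegrable _ _)
    intro y _
    exact kerF_le hβ hN a y
  refine h1.trans ?_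
  rw [intervalIntegral.integral_add (hcont1.intervalIntegrable _ _)
    (hcont2.intervalIntegrable _ _)]
  have h2 : ∫ y in c..d, Real.sinc (a * y) ^ 2 ≤ Real.pi / a := by
    rw [intervalIntegral.integral_comp_mul_left (fun v => Real.sinc v ^ 2) ha.ne', smul_eq_mul,
      inv_mul_eq_div]
    gcongr
    exact integral_sinc_sq_le (by gcongr)
  have h3 : ∫ y in c..d, β ^ 2 / (β ^ 2 + (a * y) ^ 2) ≤ β * Real.pi / a := by
    have e : ∀ y : ℝ, β ^ 2 / (β ^ 2 + (a * y) ^ 2) = (fun u : ℝ => 1 / (1 + u ^ 2)) (a / β * y) := by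
      intro y
      simp only
      field_simp
    simp_rw [e]
    rw [intervalIntegral.integral_comp_mul_left (fun u : ℝ => 1 / (1 + u ^ 2))
      (by positivity : a / β ≠ 0), smul_eq_mul, integral_one_div_one_add_sq]
    have h4 := Real.arctan_lt_pi_div_two (a / β * d)
    have h5 := Real.neg_pi_div_two_lt_arctan (a / β * c)
    have h6 : Real.arctan (a / β * d) - Real.arctan (a / β * c) ≤ Real.pi := by linarith
    calc (a / β)⁻¹ * (Real.arctan (a / β * d) - Real.arctan (a / β * c)) ≤ (a / β)⁻¹ * Real.pi := by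
          gcongr
      _ = _ := by field_simp
  calc _ ≤ β * Real.pi / a + Real.pi / a := add_le_add h3 h2
    _ = _ := by ring

end Pool.Agent.Lib.MP_6bc78b_nt.LL
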